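import Pool.Agent.Lib.MP_4dc748_co.LL.Conf

/-!
# Discharging certificates with a quadratic term

A certificate consists of a charge phi (code, W) of the flags, a bound gamma for the line classes, a quadratic form
q (u, u') on the pairs of classes of a line class and lower bounds alpha u for the classes.
-/

set_option autoImplicit false

namespace Pool.Agent.Lib.MP_4dc748_co.LL

open Pool.Agent.Lib.MP_4dc748_co.RS

/-- Certificates, packed in natural numbers. -/
structure Cert where
  /-- largest size of a class -/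
  umax : ℕ
  /-- the charges: 16 bits at 32 * code + W, offset 32768 -/
  phi : ℕ
  /-- positive part of gamma -/
  gp : ℕ
  /-- negative part of gamma -/
  gm : ℕ
  /-- the quadratic form: 16 bits at 16 * s + t, offset 32768 -/
  qt : ℕ
  /-- the bounds alpha: 32 bits at u, offset 2147483648 -/
  al : ℕ

/-- Entry of the table of charges. -/
def ph (F c W : ℕ) : ℕ := Nat.land (Nat.shiftRight F (Nat.mul 16 (Nat.add (Nat.mul 32 c) W))) 65535
/-- Entry of the table of the quadratic form. -/
def qv (Q s t : ℕ) : ℕ := Nat.land (Nat.shiftRight Q (Nat.mul 16 (Nat.add (Nat.mul 16 s) t))) 65535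
/-- Entry of the table of the bounds. -/
def av (A u : ℕ) : ℕ := Nat.land (Nat.shiftRight A (Nat.mul 32 u)) 4294967295

/-- The charge. -/
def Cert.phiZ (D : Cert) (c W : ℕ) : ℤ := (ph D.phi c W : ℤ) - 32768
/-- The bound for lines. -/
def Cert.gammaZ (D : Cert) : ℤ := (D.gp : ℤ) - D.gm
/-- The quadratic form. -/
def Cert.qZ (D : Cert) (s t : ℕ) : ℤ := (qv D.qt s t : ℤ) - 32768
/-- The bound for classes. -/
def Cert.alZ (D : Cert) (u : ℕ) : ℤ := (av D.al u : ℤ) - 2147483648

/-! ### Lines -/

/-- Packed sizes of the patterns. -/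
def szt (c : ℕ) : ℕ := Nat.land (Nat.shiftRight 0x87465543876654543243210 (Nat.mul 4 c)) 15

/-- The line inequality for one 5-tuple. -/
def lineG (D : Cert) (a b c d e : ℕ) : Bool :=
  let s0 := szt a
  let s1 := szt b
  let s2 := szt c
  let s3 := szt d
  let s4 := szt e
  let W := Nat.add (Nat.add (Nat.add (Nat.add s0 s1) s2) s3) s4
  Nat.ble 29 W ||
    Nat.ble (Nat.add (Nat.add (Nat.add (Nat.add (Nat.add (ph D.phi a W) (ph D.phi b W)) (ph D.phi c W)) (ph D.phi d W))
        (ph D.phi e W)) (Nat.add 819200 D.gm))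
      (Nat.add (Nat.add D.gp 163840)
        (Nat.add (Nat.add (Nat.add (Nat.add (Nat.add (qv D.qt s0 s0) (qv D.qt s1 s1)) (qv D.qt s2 s2)) (qv D.qt s3 s3))
            (qv D.qt s4 s4))
          (Nat.add
            (Nat.add (Nat.add (Nat.add (qv D.qt s0 s1) (qv D.qt s1 s0)) (Nat.add (qv D.qt s0 s2) (qv D.qt s2 s0)))
              (Nat.add (Nat.add (qv D.qt s0 s3) (qv D.qt s3 s0)) (Nat.add (qv D.qt s0 s4) (qv D.qt s4 s0))))
            (Nat.add
              (Nat.add (Nat.add (Nat.add (qv D.qt s1 s2) (qv D.qt s2 s1)) (Nat.add (qv D.qt s1 s3) (qv D.qt s3 s1)))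
                (Nat.add (Nat.add (qv D.qt s1 s4) (qv D.qt s4 s1)) (Nat.add (qv D.qt s2 s3) (qv D.qt s3 s2))))
              (Nat.add (Nat.add (qv D.qt s2 s4) (qv D.qt s4 s2)) (Nat.add (qv D.qt s3 s4) (qv D.qt s4 s3)))))))

/-- p holds for all codes up to n of size at most m. -/
def upS (m : ℕ) (p : ℕ → Bool) : ℕ → Bool
  | 0 => p 0
  | k + 1 => (Nat.blt m (szt (k + 1)) || p (k + 1)) && upS m p k

/-- The check of all line inequalities. -/
def Cert.lineOk (D : Cert) : Bool :=
  upS D.umax (fun a => upS D.umax (fun b => upS D.umax (fun c => upS D.umax (fun d => upS D.umax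
    (fun e => not (bit a b c d e) || lineG D a b c d e) d) c) b) a) 22

theorem upS_true {m : ℕ} {p : ℕ → Bool} : ∀ {n : ℕ}, upS m p n = true → ∀ {k : ℕ}, k ≤ n → szt k ≤ m → p k = true
  | 0, h, k, hk, _ => by
      rw [Nat.le_zero.1 hk]
      exact h
  | n + 1, h, k, hk, hs => by
      rw [upS, Bool.and_eq_true, Bool.or_eq_true] at h
      rcases Nat.lt_or_ge n k with h1 | h1
      · have h2 : k = n + 1 := by omega
        rw [h2] at hs ⊢
        rcases h.1 with h3 | h3
        · have h4 : m < szt (n + 1) := by simpa using h3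
          omega
        · exact h3
      · exact upS_true h.2 h1 hs

theorem szt_eq : ∀ c ≤ 22, szt c = sz c := by decide +kernel

/-- The line inequality in Z. -/
def lineZ (D : Cert) (a b c d e : ℕ) : Prop :=
  sz a + sz b + sz c + sz d + sz e ≤ 28 → sz a ≤ D.umax → sz b ≤ D.umax → sz c ≤ D.umax → sz d ≤ D.umax →
    sz e ≤ D.umax →
  D.phiZ a (sz a + sz b + sz c + sz d + sz e) + D.phiZ b (sz a + sz b + sz c + sz d + sz e) +
    D.phiZ c (sz a + sz b + sz c + sz d + sz e) + D.phiZ d (sz a + sz b + sz c + sz d + sz e) +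
    D.phiZ e (sz a + sz b + sz c + sz d + sz e) ≤
  D.gammaZ + (D.qZ (sz a) (sz a) + D.qZ (sz b) (sz b) + D.qZ (sz c) (sz c) + D.qZ (sz d) (sz d) +
    D.qZ (sz e) (sz e)) +
    (D.qZ (sz a) (sz b) + D.qZ (sz b) (sz a) + (D.qZ (sz a) (sz c) + D.qZ (sz c) (sz a)) +
    (D.qZ (sz a) (sz d) + D.qZ (sz d) (sz a)) + (D.qZ (sz a) (sz e) + D.qZ (sz e) (sz a)) +
    (D.qZ (sz b) (sz c) + D.qZ (sz c) (sz b)) + (D.qZ (sz b) (sz d) + D.qZ (sz d) (sz b)) +
    (D.qZ (sz b) (sz e) + D.qZ (sz e) (sz b)) + (D.qZ (sz c) (sz d) + D.qZ (sz d) (sz c)) +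
    (D.qZ (sz c) (sz e) + D.qZ (sz e) (sz c)) + (D.qZ (sz d) (sz e) + D.qZ (sz e) (sz d)))

theorem lineZ_of_lineG {D : Cert} {a b c d e : ℕ} (ha : a ≤ 22) (hb : b ≤ 22) (hc : c ≤ 22) (hd : d ≤ 22)
    (he : e ≤ 22) (h : lineG D a b c d e = true) : lineZ D a b c d e := by
  intro hW _ _ _ _ _
  unfold lineG at h
  simp only [szt_eq a ha, szt_eq b hb, szt_eq c hc, szt_eq d hd, szt_eq e he, Nat.add_eq] at h
  rw [Bool.or_eq_true] at h
  rcases h with h | h
  · have := Nat.le_of_ble_eq_true h
    omega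
  · have h1 := Nat.le_of_ble_eq_true h
    unfold Cert.phiZ Cert.gammaZ Cert.qZ
    zify at h1
    linarith

theorem lineZ_all {D : Cert} (h : D.lineOk = true) {a b c d e : ℕ} (ha : a ≤ 22) (hb : b ≤ 22) (hc : c ≤ 22)
    (hd : d ≤ 22) (he : e ≤ 22) (hr : Rz a b c d e) : lineZ D a b c d e := by
  refine all_of_sorted (lineZ D) ?_ ?_ ?_ ?_ ?_ ha hb hc hd he hr
  · intro a b c d e h hW ha hb hc hd he
    have := h (by omega) hb ha hc hd he
    rw [show sz b + sz a + sz c + sz d + sz e = sz a + sz b + sz c + sz d + sz e by ring] at this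
    linarith
  · intro a b c d e h hW ha hb hc hd he
    have := h (by omega) ha hc hb hd he
    rw [show sz a + sz c + sz b + sz d + sz e = sz a + sz b + sz c + sz d + sz e by ring] at this
    linarith
  · intro a b c d e h hW ha hb hc hd he
    have := h (by omega) ha hb hd hc he
    rw [show sz a + sz b + sz d + sz c + sz e = sz a + sz b + sz c + sz d + sz e by ring] at this
    linarith
  · intro a b c d e h hW ha hb hc hd he
    have := h (by omega) ha hb hc he hd
    rw [show sz a + sz b + sz c + sz e + sz d = sz a + sz b + sz c + sz d + sz e by ring] at this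
    linarith
  · intro a b c d e he hd hc hb ha hbit hW sa sb sc sd se
    unfold Cert.lineOk at h
    have h1 := upS_true (upS_true (upS_true (upS_true (upS_true h ha (by rw [szt_eq a ha]; exact sa)) hb
      (by rw [szt_eq b (by omega)]; exact sb)) hc (by rw [szt_eq c (by omega)]; exact sc)) hd
      (by rw [szt_eq d (by omega)]; exact sd)) he (by rw [szt_eq e (by omega)]; exact se)
    rw [Bool.or_eq_true, Bool.not_eq_true', hbit] at h1
    rcases h1 with h1 | h1
    · exact absurd h1 (by decide)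
    · exact lineZ_of_lineG ha (by omega) (by omega) (by omega) (by omega) h1 hW sa sb sc sd se

end Pool.Agent.Lib.MP_4dc748_co.LL
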