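import Pool.Agent.Lib.MP_4dc748_co.LL.CertMain

/-!
# Certificates with a general symmetric function of the five sizes on the line side
-/

set_option autoImplicit false

namespace Pool.Agent.Lib.MP_4dc748_co.LL

open Pool.Agent.Lib.MP_4dc748_co.RS

/-- The line inequality for one 5-tuple, with G = Gp - Gm. -/
def lineF (D : Cert) (Gp Gm : ℕ → ℕ → ℕ → ℕ → ℕ → ℕ) (a b c d e : ℕ) : Bool :=
  let s0 := szt a
  let s1 := szt b
  let s2 := szt c
  let s3 := szt d
  let s4 := szt e
  let W := Nat.add (Nat.add (Nat.add (Nat.add s0 s1) s2) s3) s4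
  Nat.ble 29 W ||
    Nat.ble (Nat.add (Nat.add (Nat.add (Nat.add (Nat.add (ph D.phi a W) (ph D.phi b W)) (ph D.phi c W)) (ph D.phi d W))
        (ph D.phi e W)) (Gm s0 s1 s2 s3 s4))
      (Nat.add 163840 (Gp s0 s1 s2 s3 s4))

/-- The check of all line inequalities. -/
def Cert.lineOkG (D : Cert) (Gp Gm : ℕ → ℕ → ℕ → ℕ → ℕ → ℕ) : Bool :=
  upS D.umax (fun a => upS D.umax (fun b => upS D.umax (fun c => upS D.umax (fun d => upS D.umax
    (fun e => not (bit a b c d e) || lineF D Gp Gm a b c d e) d) c) b) a) 22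

/-- The line inequality in Z. -/
def lineY (D : Cert) (G : ℕ → ℕ → ℕ → ℕ → ℕ → ℤ) (a b c d e : ℕ) : Prop :=
  sz a + sz b + sz c + sz d + sz e ≤ 28 → sz a ≤ D.umax → sz b ≤ D.umax → sz c ≤ D.umax → sz d ≤ D.umax →
    sz e ≤ D.umax →
  D.phiZ a (sz a + sz b + sz c + sz d + sz e) + D.phiZ b (sz a + sz b + sz c + sz d + sz e) +
    D.phiZ c (sz a + sz b + sz c + sz d + sz e) + D.phiZ d (sz a + sz b + sz c + sz d + sz e) +
    D.phiZ e (sz a + sz b + sz c + sz d + sz e) ≤ G (sz a) (sz b) (sz c) (sz d) (sz e)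

theorem lineY_all {D : Cert} {Gp Gm : ℕ → ℕ → ℕ → ℕ → ℕ → ℕ} {G : ℕ → ℕ → ℕ → ℕ → ℕ → ℤ}
    (hG : ∀ a b c d e, G a b c d e = (Gp a b c d e : ℤ) - Gm a b c d e)
    (g0 : ∀ a b c d e, G b a c d e = G a b c d e) (g1 : ∀ a b c d e, G a c b d e = G a b c d e)
    (g2 : ∀ a b c d e, G a b d c e = G a b c d e) (g3 : ∀ a b c d e, G a b c e d = G a b c d e)
    (h : D.lineOkG Gp Gm = true) {a b c d e : ℕ} (ha : a ≤ 22) (hb : b ≤ 22) (hc : c ≤ 22)
    (hd : d ≤ 22) (he : e ≤ 22) (hr : Rz a b c d e) : lineY D G a b c d e := by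
  refine all_of_sorted (lineY D G) ?_ ?_ ?_ ?_ ?_ ha hb hc hd he hr
  · intro a b c d e h hW ha hb hc hd he
    have := h (by omega) hb ha hc hd he
    rw [show sz b + sz a + sz c + sz d + sz e = sz a + sz b + sz c + sz d + sz e by ring, g0] at this
    linarith
  · intro a b c d e h hW ha hb hc hd he
    have := h (by omega) ha hc hb hd he
    rw [show sz a + sz c + sz b + sz d + sz e = sz a + sz b + sz c + sz d + sz e by ring, g1] at this
    linarith
  · intro a b c d e h hW ha hb hc hd he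
    have := h (by omega) ha hb hd hc he
    rw [show sz a + sz b + sz d + sz c + sz e = sz a + sz b + sz c + sz d + sz e by ring, g2] at this
    linarith
  · intro a b c d e h hW ha hb hc hd he
    have := h (by omega) ha hb hc he hd
    rw [show sz a + sz b + sz c + sz e + sz d = sz a + sz b + sz c + sz d + sz e by ring, g3] at this
    linarith
  · intro a b c d e he hd hc hb ha hbit hW sa sb sc sd se
    unfold Cert.lineOkG at h
    have h1 := upS_true (upS_true (upS_true (upS_true (upS_true h ha (by rw [szt_eq a ha]; exact sa)) hb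
      (by rw [szt_eq b (by omega)]; exact sb)) hc (by rw [szt_eq c (by omega)]; exact sc)) hd
      (by rw [szt_eq d (by omega)]; exact sd)) he (by rw [szt_eq e (by omega)]; exact se)
    rw [Bool.or_eq_true, Bool.not_eq_true', hbit] at h1
    rcases h1 with h1 | h1
    · exact absurd h1 (by decide)
    · unfold lineF at h1
      simp only [szt_eq a ha, szt_eq b (by omega), szt_eq c (by omega), szt_eq d (by omega), szt_eq e (by omega),
        Nat.add_eq] at h1
      rw [Bool.or_eq_true] at h1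
      rcases h1 with h1 | h1
      · have := Nat.le_of_ble_eq_true h1
        omega
      · have h2 := Nat.le_of_ble_eq_true h1
        rw [hG]
        unfold Cert.phiZ
        zify at h2
        linarith

/-- THE MAIN INEQUALITY of a certificate with a general symmetric function G on the line side. -/
theorem Conf.mainG (C : Conf) {D : Cert} {Gp Gm : ℕ → ℕ → ℕ → ℕ → ℕ → ℕ} {G : ℕ → ℕ → ℕ → ℕ → ℕ → ℤ}
    (hG : ∀ a b c d e, G a b c d e = (Gp a b c d e : ℤ) - Gm a b c d e)
    (g0 : ∀ a b c d e, G b a c d e = G a b c d e) (g1 : ∀ a b c d e, G a c b d e = G a b c d e)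
    (g2 : ∀ a b c d e, G a b d c e = G a b c d e) (g3 : ∀ a b c d e, G a b c e d = G a b c d e)
    (hl : D.lineOkG Gp Gm = true) (hp : D.pointOk = true) (hu : ∀ p, C.u p ≤ D.umax) :
    ∑ p : Fin 21, D.alZ (C.u p) ≤
      ∑ a : Fin 21, G (C.u (cl a 0)) (C.u (cl a 1)) (C.u (cl a 2)) (C.u (cl a 3)) (C.u (cl a 4)) := by
  have line : ∀ a : Fin 21, ∑ i : Fin 5, D.phiZ (C.c a (cl a i)) (C.W a) ≤
      G (C.u (cl a 0)) (C.u (cl a 1)) (C.u (cl a 2)) (C.u (cl a 3)) (C.u (cl a 4)) := by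
    intro a
    have key := lineY_all hG g0 g1 g2 g3 hl (C.hc a _ (cl_on a 0)) (C.hc a _ (cl_on a 1)) (C.hc a _ (cl_on a 2))
      (C.hc a _ (cl_on a 3)) (C.hc a _ (cl_on a 4)) (C.hrz a)
    unfold lineY at key
    simp only [C.hsz a _ (cl_on a 0), C.hsz a _ (cl_on a 1), C.hsz a _ (cl_on a 2), C.hsz a _ (cl_on a 3),
      C.hsz a _ (cl_on a 4)] at key
    have key' := key C.W_le (hu _) (hu _) (hu _) (hu _) (hu _)
    have e : C.u (cl a 0) + C.u (cl a 1) + C.u (cl a 2) + C.u (cl a 3) + C.u (cl a 4) = C.W a := rfl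
    rw [e] at key'
    simp only [Fin.sum_univ_five]
    linarith
  calc ∑ p : Fin 21, D.alZ (C.u p)
      ≤ ∑ p : Fin 21, ∑ i : Fin 5, D.phiZ (C.c (cl p i) p) (C.W (cl p i)) :=
        Finset.sum_le_sum fun p _ => C.point hp (hu p)
    _ = ∑ a : Fin 21, ∑ i : Fin 5, D.phiZ (C.c a (cl a i)) (C.W a) :=
        sum_flags fun a p => D.phiZ (C.c a p) (C.W a)
    _ ≤ _ := Finset.sum_le_sum fun a _ => line a

end Pool.Agent.Lib.MP_4dc748_co.LL
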