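import Pool.Agent.Lib.MP_4dc748_co.LL.Point

/-!
# The main inequality of a certificate
-/

set_option autoImplicit false

namespace Pool.Agent.Lib.MP_4dc748_co.LL

open Pool.Agent.Lib.MP_4dc748_co.RS

namespace Conf

variable (C : Conf)

theorem u_le_W (a : Fin 21) (i : Fin 5) : C.u (cl a i) ≤ C.W a := by
  have h : C.W a = ∑ j : Fin 5, C.u (cl a j) := by
    rw [Fin.sum_univ_five]
    rfl
  rw [h]
  exact Finset.single_le_sum (f := fun j => C.u (cl a j)) (fun j _ => Nat.zero_le _) (Finset.mem_univ i)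

theorem u_le_W' {a p : Fin 21} (h : on a p) : C.u p ≤ C.W a := by
  obtain ⟨i, rfl⟩ := exists_cl h
  exact C.u_le_W a i

theorem on_cl (p : Fin 21) (i : Fin 5) : on (cl p i) p := (on_comm _ _).1 (cl_on p i)

theorem hW' (p : Fin 21) : ∑ i : Fin 5, C.W (cl p i) = 99 + 4 * C.u p := C.hW p

theorem mx_ge : ∀ c ≤ 22, sz c ≤ 4 * (pq c).1 := by decide +kernel

theorem W_le {a : Fin 21} : C.W a ≤ 28 := by
  have h := C.hmx a (cl a 0) (cl_on a 0)
  have h1 := C.hsz a (cl a 0) (cl_on a 0)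
  have h2 := mx_ge _ (C.hc a (cl a 0) (cl_on a 0))
  unfold W
  omega

/-- The point inequality for a configuration. -/
theorem point {D : Cert} (h : D.pointOk = true) {p : Fin 21} (hu : C.u p ≤ D.umax) :
    D.alZ (C.u p) ≤ ∑ i : Fin 5, D.phiZ (C.c (cl p i) p) (C.W (cl p i)) := by
  obtain ⟨t, ht, hperm⟩ := C.htype p
  let L : List (ℕ × ℕ) := [(C.c (cl p 0) p, C.W (cl p 0)), (C.c (cl p 1) p, C.W (cl p 1)),
    (C.c (cl p 2) p, C.W (cl p 2)), (C.c (cl p 3) p, C.W (cl p 3)), (C.c (cl p 4) p, C.W (cl p 4))]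
  obtain ⟨L', h1, h2⟩ := lift_perm Prod.fst hperm (L := L) rfl
  have hmem : ∀ x ∈ L', ∃ i : Fin 5, x = (C.c (cl p i) p, C.W (cl p i)) := by
    intro x hx
    have hx' : x ∈ L := h1.subset hx
    simp only [L, List.mem_cons, List.not_mem_nil, or_false] at hx'
    rcases hx' with rfl | rfl | rfl | rfl | rfl
    exacts [⟨0, rfl⟩, ⟨1, rfl⟩, ⟨2, rfl⟩, ⟨3, rfl⟩, ⟨4, rfl⟩]
  have key := point_le h hu ht h2 (fun x hx => by
    obtain ⟨i, rfl⟩ := hmem x hx
    exact C.hsz _ _ (on_cl p i)) (fun x hx => by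
    obtain ⟨i, rfl⟩ := hmem x hx
    exact ⟨C.hmx _ _ (on_cl p i), C.u_le_W' (on_cl p i)⟩) (by
    rw [(h1.map Prod.snd).sum_eq, ← C.hW' p, Fin.sum_univ_five]
    simp only [L, List.map_cons, List.map_nil, List.sum_cons, List.sum_nil]
    ring)
  rw [(h1.map fun x => D.phiZ x.1 x.2).sum_eq] at key
  rw [Fin.sum_univ_five]
  simp only [L, List.map_cons, List.map_nil, List.sum_cons, List.sum_nil] at key
  linarith

/-- The line inequality for a configuration. -/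
theorem line {D : Cert} (h : D.lineOk = true) (hu : ∀ p, C.u p ≤ D.umax) (a : Fin 21) :
    ∑ i : Fin 5, D.phiZ (C.c a (cl a i)) (C.W a) ≤
      D.gammaZ + ∑ i : Fin 5, ∑ j : Fin 5, D.qZ (C.u (cl a i)) (C.u (cl a j)) := by
  have key := lineZ_all h (C.hc a _ (cl_on a 0)) (C.hc a _ (cl_on a 1)) (C.hc a _ (cl_on a 2))
    (C.hc a _ (cl_on a 3)) (C.hc a _ (cl_on a 4)) (C.hrz a)
  unfold lineZ at key
  simp only [C.hsz a _ (cl_on a 0), C.hsz a _ (cl_on a 1), C.hsz a _ (cl_on a 2), C.hsz a _ (cl_on a 3),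
    C.hsz a _ (cl_on a 4)] at key
  have key' := key C.W_le (hu _) (hu _) (hu _) (hu _) (hu _)
  have e : C.u (cl a 0) + C.u (cl a 1) + C.u (cl a 2) + C.u (cl a 3) + C.u (cl a 4) = C.W a := rfl
  rw [e] at key'
  simp only [Fin.sum_univ_five]
  linarith

/-- THE MAIN INEQUALITY of a certificate. -/
theorem main {D : Cert} (hl : D.lineOk = true) (hp : D.pointOk = true) (hu : ∀ p, C.u p ≤ D.umax) :
    ∑ p : Fin 21, D.alZ (C.u p) ≤ 21 * D.gammaZ + (∑ p : Fin 21, ∑ q : Fin 21, D.qZ (C.u p) (C.u q)) +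
      4 * ∑ p : Fin 21, D.qZ (C.u p) (C.u p) := by
  calc ∑ p : Fin 21, D.alZ (C.u p)
      ≤ ∑ p : Fin 21, ∑ i : Fin 5, D.phiZ (C.c (cl p i) p) (C.W (cl p i)) :=
        Finset.sum_le_sum fun p _ => C.point hp (hu p)
    _ = ∑ a : Fin 21, ∑ i : Fin 5, D.phiZ (C.c a (cl a i)) (C.W a) :=
        sum_flags fun a p => D.phiZ (C.c a p) (C.W a)
    _ ≤ ∑ a : Fin 21, (D.gammaZ + ∑ i : Fin 5, ∑ j : Fin 5, D.qZ (C.u (cl a i)) (C.u (cl a j))) :=
        Finset.sum_le_sum fun a _ => C.line hl hu a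
    _ = _ := by
        rw [Finset.sum_add_distrib, sum_pairs fun p q => D.qZ (C.u p) (C.u q)]
        simp only [Finset.sum_const, Finset.card_univ, Fintype.card_fin, nsmul_eq_mul]
        push_cast
        ring

end Conf

end Pool.Agent.Lib.MP_4dc748_co.LL
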