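import Pool.Agent.Lib.MP_4dc748_co.LL.Search

/-!
# The check of the whole table (kernel computation in rows, about 40 seconds)
-/

set_option autoImplicit false

namespace Pool.Agent.Lib.MP_4dc748_co.LL

theorem upTo_mk (p : ℕ → Bool) : ∀ n : ℕ, (∀ k ≤ n, p k = true) → upTo p n = true
  | 0, h => h 0 le_rfl
  | n + 1, h => by
    rw [upTo, h (n + 1) le_rfl, upTo_mk p n fun k hk => h k (Nat.le_succ_of_le hk)]
    rfl

theorem row0 : upTo (chk 0) 0 = true := by decide +kernel

theorem row1 : upTo (chk 1) 1 = true := by decide +kernel

theorem row2 : upTo (chk 2) 2 = true := by decide +kernel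

theorem row3 : upTo (chk 3) 3 = true := by decide +kernel

theorem row4 : upTo (chk 4) 4 = true := by decide +kernel

theorem row5 : upTo (chk 5) 5 = true := by decide +kernel

theorem row6 : upTo (chk 6) 6 = true := by decide +kernel

theorem row7 : upTo (chk 7) 7 = true := by decide +kernel

theorem row8 : upTo (chk 8) 8 = true := by decide +kernel

theorem row9 : upTo (chk 9) 9 = true := by decide +kernel

theorem row10 : upTo (chk 10) 10 = true := by decide +kernel

theorem row11 : upTo (chk 11) 11 = true := by decide +kernel

theorem row12 : upTo (chk 12) 12 = true := by decide +kernel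

theorem row13 : upTo (chk 13) 13 = true := by decide +kernel

theorem row14 : upTo (chk 14) 14 = true := by decide +kernel

theorem row15 : upTo (chk 15) 15 = true := by decide +kernel

theorem row16 : upTo (chk 16) 16 = true := by decide +kernel

theorem row17 : upTo (chk 17) 17 = true := by decide +kernel

theorem row18 : upTo (chk 18) 18 = true := by decide +kernel

theorem row19 : upTo (chk 19) 19 = true := by decide +kernel

theorem row20 : upTo (chk 20) 20 = true := by decide +kernel

theorem row21 : upTo (chk 21) 21 = true := by decide +kernel

theorem row22 : upTo (chk 22) 22 = true := by decide +kernel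

theorem chk_all : upTo (fun a => upTo (chk a) a) 22 = true := by
  refine upTo_mk _ 22 fun k hk => ?_
  interval_cases k
  exacts [row0, row1, row2, row3, row4, row5, row6, row7, row8, row9, row10, row11, row12, row13, row14, row15, row16, row17, row18, row19, row20, row21, row22]

end Pool.Agent.Lib.MP_4dc748_co.LL
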