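import Pool.Agent.Lib.MP_4dc748_co.LL.Link

/-!
# Class level configurations

The numbers u p of points in the classes and the codes c a p of the patterns of the class p in the direction of
the line class a, with all the properties used at class level, and the two double countings.
-/

set_option autoImplicit false

namespace Pool.Agent.Lib.MP_4dc748_co.LL

open Pool.Agent.Lib.MP_4dc748_co.RS

/-- The class p is on the line class a. -/
def on (a p : Fin 21) : Prop := vec a ⬝ᵥ vec p = 0

instance (a p : Fin 21) : Decidable (on a p) := by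
  unfold on
  infer_instance

theorem on_comm (a p : Fin 21) : on a p ↔ on p a := by
  unfold on
  rw [dotProduct_comm]

/-- The 16 types: the codes of the patterns in the five directions. -/
def types : List (List ℕ) :=
  [[0, 0, 0, 0, 0], [1, 1, 1, 1, 1], [5, 2, 2, 2, 2], [15, 3, 3, 3, 3], [6, 6, 6, 3, 3], [20, 4, 4, 4, 4],
   [9, 9, 9, 4, 4], [16, 7, 7, 7, 4], [9, 7, 7, 7, 7], [10, 10, 10, 10, 10], [18, 10, 10, 8, 8],
   [17, 10, 10, 10, 8], [12, 12, 12, 12, 12], [19, 12, 11, 11, 11], [21, 13, 13, 13, 13], [22, 14, 14, 14, 14]]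

/-- A configuration at class level. -/
structure Conf where
  /-- sizes of the classes -/
  u : Fin 21 → ℕ
  /-- codes of the patterns -/
  c : Fin 21 → Fin 21 → ℕ
  hc : ∀ a p, on a p → c a p ≤ 22
  hsz : ∀ a p, on a p → sz (c a p) = u p
  hrz : ∀ a, Rz (c a (cl a 0)) (c a (cl a 1)) (c a (cl a 2)) (c a (cl a 3)) (c a (cl a 4))
  hmx : ∀ a p, on a p → 4 * (pq (c a p)).1 + (u (cl a 0) + u (cl a 1) + u (cl a 2) + u (cl a 3) + u (cl a 4)) ≤
    28 + u p
  hW : ∀ p, (∑ i : Fin 5, (u (cl (cl p i) 0) + u (cl (cl p i) 1) + u (cl (cl p i) 2) + u (cl (cl p i) 3) +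
    u (cl (cl p i) 4))) = 99 + 4 * u p
  htype : ∀ p, ∃ t ∈ types, [c (cl p 0) p, c (cl p 1) p, c (cl p 2) p, c (cl p 3) p, c (cl p 4) p].Perm t

/-- The weight of a line class. -/
def Conf.W (C : Conf) (a : Fin 21) : ℕ := C.u (cl a 0) + C.u (cl a 1) + C.u (cl a 2) + C.u (cl a 3) + C.u (cl a 4)

/-- Sums over the classes on a line class, in an additive commutative monoid. -/
theorem sum_on (a : Fin 21) (f : Fin 21 → ℤ) :
    (∑ p : Fin 21, if on a p then f p else 0) = ∑ i : Fin 5, f (cl a i) := by
  unfold on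
  rw [← Finset.sum_filter, cl_image, Finset.sum_image (fun i _ j _ h => cl_inj a i j h)]

/-- Double counting of the flags. -/
theorem sum_flags (F : Fin 21 → Fin 21 → ℤ) :
    ∑ p : Fin 21, ∑ i : Fin 5, F (cl p i) p = ∑ a : Fin 21, ∑ i : Fin 5, F a (cl a i) := by
  have h1 : ∀ p : Fin 21, ∑ i : Fin 5, F (cl p i) p = ∑ a : Fin 21, if on a p then F a p else 0 := by
    intro p
    rw [← sum_on p fun a => F a p]
    refine Finset.sum_congr rfl fun a _ => ?_
    by_cases h : on p a
    · rw [if_pos h, if_pos ((on_comm p a).1 h)]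
    · rw [if_neg h, if_neg fun h1 => h ((on_comm a p).1 h1)]
  simp only [h1]
  rw [Finset.sum_comm]
  exact Finset.sum_congr rfl fun a _ => sum_on a fun p => F a p

/-- Two different classes are on one line class, and every class is on five. -/
theorem card_on : ∀ p q : Fin 21, (Finset.univ.filter fun a : Fin 21 => on a p ∧ on a q).card =
    if p = q then 5 else 1 := by
  decide +kernel

/-- Double counting of the ordered pairs of classes. -/
theorem sum_pairs (Q : Fin 21 → Fin 21 → ℤ) :
    ∑ a : Fin 21, ∑ i : Fin 5, ∑ j : Fin 5, Q (cl a i) (cl a j) =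
      (∑ p : Fin 21, ∑ q : Fin 21, Q p q) + 4 * ∑ p : Fin 21, Q p p := by
  have h1 : ∀ a : Fin 21, ∑ i : Fin 5, ∑ j : Fin 5, Q (cl a i) (cl a j) =
      ∑ p : Fin 21, ∑ q : Fin 21, if on a p ∧ on a q then Q p q else 0 := by
    intro a
    rw [← sum_on a fun p => ∑ j : Fin 5, Q p (cl a j)]
    refine Finset.sum_congr rfl fun p _ => ?_
    by_cases h : on a p
    · rw [if_pos h, ← sum_on a fun q => Q p q]
      refine Finset.sum_congr rfl fun q _ => ?_
      simp only [h, true_and]
    · rw [if_neg h]
      symm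
      refine Finset.sum_eq_zero fun q _ => ?_
      rw [if_neg fun h1 => h h1.1]
  simp only [h1]
  rw [Finset.sum_comm]
  have h2 : ∀ p : Fin 21, ∑ a : Fin 21, ∑ q : Fin 21, (if on a p ∧ on a q then Q p q else 0) =
      (∑ q : Fin 21, Q p q) + 4 * Q p p := by
    intro p
    rw [Finset.sum_comm]
    have h3 : ∀ q : Fin 21, ∑ a : Fin 21, (if on a p ∧ on a q then Q p q else 0) =
        Q p q + if p = q then 4 * Q p q else 0 := by
      intro q
      rw [← Finset.sum_filter, Finset.sum_const, card_on]
      by_cases h : p = q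
      · rw [if_pos h, if_pos h]
        simp only [nsmul_eq_mul]
        push_cast
        ring
      · rw [if_neg h, if_neg h]
        simp
    simp only [h3]
    rw [Finset.sum_add_distrib, Finset.sum_ite_eq Finset.univ p]
    simp
  simp only [h2]
  rw [Finset.sum_add_distrib, ← Finset.mul_sum]

end Pool.Agent.Lib.MP_4dc748_co.LL
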