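import Pool.Agent.Lib.MP_4dc748_co.LL.Main
import Pool.Agent.Lib.MP_4dc748_co.RS.Iface

/-!
# From LineBound to Ok

cl a i (i < 5) are the five classes on the line class a, in the order
r2, r1, r1 + r2, r1 + w r2, r1 + v r2.
-/

set_option autoImplicit false

namespace Pool.Agent.Lib.MP_4dc748_co.LL

open Pool.Agent.Lib.MP_4dc748_co.RS

/-- The table of the classes on the line classes. -/
def clt : List (List (Fin 21)) :=
  [[1, 5, 9, 13, 17], [0, 5, 6, 7, 8], [2, 5, 10, 15, 20], [4, 5, 12, 14, 19], [3, 5, 11, 16, 18], [0, 1, 2, 3, 4],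
   [1, 6, 10, 14, 18], [1, 8, 12, 16, 20], [1, 7, 11, 15, 19], [0, 9, 10, 11, 12], [2, 6, 9, 16, 19],
   [4, 8, 9, 15, 18], [3, 7, 9, 14, 20], [0, 17, 18, 19, 20], [3, 6, 12, 15, 17], [2, 8, 11, 14, 17],
   [4, 7, 10, 16, 17], [0, 13, 14, 15, 16], [4, 6, 11, 13, 20], [3, 8, 10, 13, 19], [2, 7, 12, 13, 18]]

/-- The five classes on the line class a. -/
def cl (a : Fin 21) (i : Fin 5) : Fin 21 := (clt.getD a.1 []).getD i.1 0

theorem cl_image : ∀ a : Fin 21, Finset.univ.filter (fun p => vec a ⬝ᵥ vec p = 0) = Finset.univ.image (cl a) := by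
  decide +kernel

theorem cl_inj : ∀ a : Fin 21, ∀ i j : Fin 5, cl a i = cl a j → i = j := by
  decide +kernel

theorem cl_on (a : Fin 21) (i : Fin 5) : vec a ⬝ᵥ vec (cl a i) = 0 := by
  have h : cl a i ∈ Finset.univ.filter (fun p => vec a ⬝ᵥ vec p = 0) := by
    rw [cl_image]
    exact Finset.mem_image_of_mem _ (Finset.mem_univ _)
  exact (Finset.mem_filter.1 h).2

theorem exists_cl {a p : Fin 21} (h : vec a ⬝ᵥ vec p = 0) : ∃ i, cl a i = p := by
  have h1 : p ∈ Finset.univ.filter (fun p => vec a ⬝ᵥ vec p = 0) := Finset.mem_filter.2 ⟨Finset.mem_univ _, h⟩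
  rw [cl_image] at h1
  obtain ⟨i, _, hi⟩ := Finset.mem_image.1 h1
  exact ⟨i, hi⟩

/-- Sums over the classes on a line class. -/
theorem sum_cl (a : Fin 21) (f : Fin 21 → ℕ) :
    ∑ p : Fin 21, (if vec a ⬝ᵥ vec p = 0 then f p else 0) =
      f (cl a 0) + f (cl a 1) + f (cl a 2) + f (cl a 3) + f (cl a 4) := by
  rw [← Finset.sum_filter, cl_image, Finset.sum_image (fun i _ j _ h => cl_inj a i j h), Fin.sum_univ_five]

theorem cl_vec : ∀ a : Fin 21, ∀ k : Fin 3,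
    vec (cl a 2) k = vec (cl a 1) k + vec (cl a 0) k ∧
    vec (cl a 3) k = vec (cl a 1) k + F4.w * vec (cl a 0) k ∧
    vec (cl a 4) k = vec (cl a 1) k + F4.v * vec (cl a 0) k := by
  decide +kernel

theorem exists_c_aux : ∀ (a : Fin 21) (s t : F4), ∃ x y z : F4,
    x * vec (cl a 0) 0 + y * vec (cl a 0) 1 + z * vec (cl a 0) 2 = t ∧
    x * vec (cl a 1) 0 + y * vec (cl a 1) 1 + z * vec (cl a 1) 2 = s := by
  decide +kernel

theorem exists_c_frob_aux : ∀ (a : Fin 21) (s t : F4), ∃ x y z : F4,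
    x * F4.frob (vec (cl a 0) 0) + y * F4.frob (vec (cl a 0) 1) + z * F4.frob (vec (cl a 0) 2) = t ∧
    x * F4.frob (vec (cl a 1) 0) + y * F4.frob (vec (cl a 1) 1) + z * F4.frob (vec (cl a 1) 2) = s := by
  decide +kernel

variable {K : Fin 21 → Finset (F4 × F4)}

theorem ok_refl (h : LineBound (RingEquiv.refl F4) 7 K) (a : Fin 21) :
    Ok (cnt K a (cl a 0)) (cnt K a (cl a 1)) (cnt K a (cl a 2)) (cnt K a (cl a 3)) (cnt K a (cl a 4)) := by
  intro s t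
  obtain ⟨x, y, z, ht, hs⟩ := exists_c_aux a s t
  have h1 := h a ![x, y, z]
  rw [sum_cl a fun p => cnt K a p (![x, y, z] ⬝ᵥ ((RingEquiv.refl F4) ∘ vec p))] at h1
  have e : ∀ p : Fin 21, (![x, y, z] ⬝ᵥ ((RingEquiv.refl F4) ∘ vec p)) = x * vec p 0 + y * vec p 1 + z * vec p 2 := by
    intro p
    simp [dotProduct, Fin.sum_univ_three]
  have e0 : (![x, y, z] ⬝ᵥ ((RingEquiv.refl F4) ∘ vec (cl a 0))) = t := by rw [e, ht]
  have e1 : (![x, y, z] ⬝ᵥ ((RingEquiv.refl F4) ∘ vec (cl a 1))) = s := by rw [e, hs]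
  have e2 : (![x, y, z] ⬝ᵥ ((RingEquiv.refl F4) ∘ vec (cl a 2))) = s + t := by
    rw [e, (cl_vec a 0).1, (cl_vec a 1).1, (cl_vec a 2).1, ← ht, ← hs]
    ring
  have e3 : (![x, y, z] ⬝ᵥ ((RingEquiv.refl F4) ∘ vec (cl a 3))) = s + F4.w * t := by
    rw [e, (cl_vec a 0).2.1, (cl_vec a 1).2.1, (cl_vec a 2).2.1, ← ht, ← hs]
    ring
  have e4 : (![x, y, z] ⬝ᵥ ((RingEquiv.refl F4) ∘ vec (cl a 4))) = s + F4.v * t := by
    rw [e, (cl_vec a 0).2.2, (cl_vec a 1).2.2, (cl_vec a 2).2.2, ← ht, ← hs]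
    ring
  simp only [e0, e1, e2, e3, e4] at h1
  exact h1

theorem ok_frob (h : LineBound F4.frob 7 K) (a : Fin 21) :
    Ok (cnt K a (cl a 0)) (cnt K a (cl a 1)) (cnt K a (cl a 2)) (cnt K a (cl a 4)) (cnt K a (cl a 3)) := by
  intro s t
  obtain ⟨x, y, z, ht, hs⟩ := exists_c_frob_aux a s t
  have h1 := h a ![x, y, z]
  rw [sum_cl a fun p => cnt K a p (![x, y, z] ⬝ᵥ (F4.frob ∘ vec p))] at h1
  have e : ∀ p : Fin 21, (![x, y, z] ⬝ᵥ (F4.frob ∘ vec p)) =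
      x * F4.frob (vec p 0) + y * F4.frob (vec p 1) + z * F4.frob (vec p 2) := by
    intro p
    simp [dotProduct, Fin.sum_univ_three]
  have fw : F4.frob F4.w = F4.v := rfl
  have fv : F4.frob F4.v = F4.w := rfl
  have e0 : (![x, y, z] ⬝ᵥ (F4.frob ∘ vec (cl a 0))) = t := by rw [e, ht]
  have e1 : (![x, y, z] ⬝ᵥ (F4.frob ∘ vec (cl a 1))) = s := by rw [e, hs]
  have e2 : (![x, y, z] ⬝ᵥ (F4.frob ∘ vec (cl a 2))) = s + t := by
    rw [e, (cl_vec a 0).1, (cl_vec a 1).1, (cl_vec a 2).1, ← ht, ← hs, map_add, map_add, map_add]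
    ring
  have e3 : (![x, y, z] ⬝ᵥ (F4.frob ∘ vec (cl a 3))) = s + F4.v * t := by
    rw [e, (cl_vec a 0).2.1, (cl_vec a 1).2.1, (cl_vec a 2).2.1, ← ht, ← hs, map_add, map_add, map_add, map_mul,
      map_mul, map_mul, fw]
    ring
  have e4 : (![x, y, z] ⬝ᵥ (F4.frob ∘ vec (cl a 4))) = s + F4.w * t := by
    rw [e, (cl_vec a 0).2.2, (cl_vec a 1).2.2, (cl_vec a 2).2.2, ← ht, ← hs, map_add, map_add, map_add, map_mul,
      map_mul, map_mul, fv]
    ring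
  simp only [e0, e1, e2, e3, e4] at h1
  omega

end Pool.Agent.Lib.MP_4dc748_co.LL
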