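import Pool.Agent.Lib.MP_4dc748_co.LL.Mem
import Pool.Agent.Lib.MP_4dc748_co.LL.ChkAll

/-!
# Every 5-tuple of patterns of a class line with at most 7 points per line is in the table
-/

set_option autoImplicit false

namespace Pool.Agent.Lib.MP_4dc748_co.LL

open Pool.Agent.Lib.MP_4dc748_co.RS

/-- The number of points of a pattern. -/
def sz (c : ℕ) : ℕ := (pq c).1 + (pq c).2.1 + (pq c).2.2.1 + (pq c).2.2.2

theorem lw_chk : ∀ c ≤ 22, ∀ q ∈ lw c, Le q c ∧ q < c ∧ sz q < sz c := by decide +kernel

theorem exists_of_anyNot {p : ℕ → Bool} : ∀ {L : List ℕ}, anyNot p L = true → ∃ q ∈ L, p q = false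
  | [], h => by simp [anyNot] at h
  | k :: L, h => by
      rw [anyNot, Bool.or_eq_true, Bool.not_eq_true'] at h
      rcases h with h | h
      · exact ⟨k, by simp, h⟩
      · obtain ⟨q, hq, hp⟩ := exists_of_anyNot h
        exact ⟨q, List.mem_cons_of_mem _ hq, hp⟩

/-- The table is right for all tuples with at most N points. -/
def Good (N : ℕ) : Prop :=
  ∀ a b c d e : ℕ, e ≤ d → d ≤ c → c ≤ b → b ≤ a → a ≤ 22 → sz a + sz b + sz c + sz d + sz e ≤ N →
    bit a b c d e = false → ¬ Rz a b c d e

variable {N a b c d e : ℕ}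

theorem b3_sound (hN : Good N) (hd : d ≤ c) (he : e ≤ c) (hc : c ≤ b) (hb : b ≤ a) (ha : a ≤ 22)
    (hs : sz a + sz b + sz c + sz d + sz e ≤ N) (h : b3 a b c d e = false) : ¬ Rz a b c d e := by
  unfold b3 at h
  rcases hx : Nat.ble e d with _ | _
  · rw [hx, cond_false] at h
    have h1 : ¬ e ≤ d := fun h1 => by
      rw [Nat.ble_eq_true_of_le h1] at hx
      exact absurd hx (by decide)
    intro hr
    exact hN a b c e d (by omega) he hc hb ha (by omega) h hr.swap3
  · rw [hx, cond_true] at h
    exact hN a b c d e (Nat.le_of_ble_eq_true hx) hd hc hb ha hs h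

theorem b2_sound (hN : Good N) (hc : c ≤ b) (hd : d ≤ b) (he : e ≤ d) (hb : b ≤ a) (ha : a ≤ 22)
    (hs : sz a + sz b + sz c + sz d + sz e ≤ N) (h : b2 a b c d e = false) : ¬ Rz a b c d e := by
  unfold b2 at h
  rcases hx : Nat.ble d c with _ | _
  · rw [hx, cond_false] at h
    have h1 : ¬ d ≤ c := fun h1 => by
      rw [Nat.ble_eq_true_of_le h1] at hx
      exact absurd hx (by decide)
    intro hr
    exact b3_sound hN (by omega) he hd hb ha (by omega) h hr.swap2
  · rw [hx, cond_true] at h
    exact hN a b c d e he (Nat.le_of_ble_eq_true hx) hc hb ha hs h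

theorem b1_sound (hN : Good N) (hb : b ≤ a) (hc : c ≤ a) (hd : d ≤ c) (he : e ≤ d) (ha : a ≤ 22)
    (hs : sz a + sz b + sz c + sz d + sz e ≤ N) (h : b1 a b c d e = false) : ¬ Rz a b c d e := by
  unfold b1 at h
  rcases hx : Nat.ble c b with _ | _
  · rw [hx, cond_false] at h
    have h1 : ¬ c ≤ b := fun h1 => by
      rw [Nat.ble_eq_true_of_le h1] at hx
      exact absurd hx (by decide)
    intro hr
    exact b2_sound hN (by omega) hd he hc ha (by omega) h hr.swap1
  · rw [hx, cond_true] at h
    exact hN a b c d e he hd (Nat.le_of_ble_eq_true hx) hb ha hs h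

theorem b0_sound (hN : Good N) (ha : a ≤ 22) (hb : b ≤ 22) (hc : c ≤ b) (hd : d ≤ c) (he : e ≤ d)
    (hs : sz a + sz b + sz c + sz d + sz e ≤ N) (h : b0 a b c d e = false) : ¬ Rz a b c d e := by
  unfold b0 at h
  rcases hx : Nat.ble b a with _ | _
  · rw [hx, cond_false] at h
    have h1 : ¬ b ≤ a := fun h1 => by
      rw [Nat.ble_eq_true_of_le h1] at hx
      exact absurd hx (by decide)
    intro hr
    exact b1_sound hN (by omega) hc hd he hb (by omega) h hr.swap0
  · rw [hx, cond_true] at h
    exact hN a b c d e he hd hc (Nat.le_of_ble_eq_true hx) ha hs h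

theorem stp_true (ha : a ≤ 22) (hb : b ≤ a) (hc : c ≤ b) (hd : d ≤ c) (he : e ≤ d) : stp a b c d e = true :=
  upTo_true (upTo_true (upTo_true (upTo_true (upTo_true chk_all ha) hb) hc) hd) he

theorem good : ∀ N, Good N
  | 0 => fun a b c d e he hd hc hb ha hs h hr => by
      have hst := stp_true ha hb hc hd he
      have key : ∀ x ≤ 22, sz x = 0 → lw x = [] := by decide
      unfold stp at hst
      rw [h, key e (by omega) (by omega), key d (by omega) (by omega), key c (by omega) (by omega),
        key b (by omega) (by omega), key a (by omega) (by omega)] at hst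
      simp only [anyNot, Bool.false_or] at hst
      rw [srch_true (by omega) (by omega) (by omega) (by omega) (by omega) hr] at hst
      exact absurd hst (by decide)
  | N + 1 => fun a b c d e he hd hc hb ha hs h hr => by
      have hN := good N
      have hst := stp_true ha hb hc hd he
      unfold stp at hst
      rw [h, Bool.false_or, Bool.or_eq_true, Bool.or_eq_true, Bool.or_eq_true, Bool.or_eq_true, Bool.or_eq_true] at hst
      rcases hst with hst | hst | hst | hst | hst | hst
      · obtain ⟨q, hq, h1⟩ := exists_of_anyNot hst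
        obtain ⟨h2, h3, h4⟩ := lw_chk e (by omega) q hq
        exact hN a b c d q (by omega) hd hc hb ha (by omega) h1 (hr.low4 h2)
      · obtain ⟨q, hq, h1⟩ := exists_of_anyNot hst
        obtain ⟨h2, h3, h4⟩ := lw_chk d (by omega) q hq
        exact b3_sound hN (by omega) (by omega) hc hb ha (by omega) h1 (hr.low3 h2)
      · obtain ⟨q, hq, h1⟩ := exists_of_anyNot hst
        obtain ⟨h2, h3, h4⟩ := lw_chk c (by omega) q hq
        exact b2_sound hN (by omega) (by omega) he hb ha (by omega) h1 (hr.low2 h2)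
      · obtain ⟨q, hq, h1⟩ := exists_of_anyNot hst
        obtain ⟨h2, h3, h4⟩ := lw_chk b (by omega) q hq
        exact b1_sound hN (by omega) (by omega) hd he ha (by omega) h1 (hr.low1 h2)
      · obtain ⟨q, hq, h1⟩ := exists_of_anyNot hst
        obtain ⟨h2, h3, h4⟩ := lw_chk a (by omega) q hq
        exact b0_sound hN (by omega) (by omega) hc hd he (by omega) h1 (hr.low0 h2)
      · rw [srch_true (by omega) (by omega) (by omega) (by omega) (by omega) hr] at hst
        exact absurd hst (by decide)

/-- Every realisable sorted tuple is in the table. -/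
theorem bit_true (he : e ≤ d) (hd : d ≤ c) (hc : c ≤ b) (hb : b ≤ a) (ha : a ≤ 22) (h : Rz a b c d e) :
    bit a b c d e = true := by
  rcases hx : bit a b c d e with _ | _
  · exact absurd h (good _ a b c d e he hd hc hb ha le_rfl hx)
  · rfl

/-- A symmetric statement which holds for all sorted tuples in the table holds for all realisable tuples. -/
theorem all_of_sorted (G : ℕ → ℕ → ℕ → ℕ → ℕ → Prop)
    (s0 : ∀ a b c d e, G b a c d e → G a b c d e) (s1 : ∀ a b c d e, G a c b d e → G a b c d e)
    (s2 : ∀ a b c d e, G a b d c e → G a b c d e) (s3 : ∀ a b c d e, G a b c e d → G a b c d e)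
    (hG : ∀ a b c d e, e ≤ d → d ≤ c → c ≤ b → b ≤ a → a ≤ 22 → bit a b c d e = true → G a b c d e)
    {a b c d e : ℕ} (ha : a ≤ 22) (hb : b ≤ 22) (hc : c ≤ 22) (hd : d ≤ 22) (he : e ≤ 22)
    (h : Rz a b c d e) : G a b c d e := by
  -- step D: b ≥ c ≥ d ≥ e, a arbitrary
  have D : ∀ a b c d e : ℕ, a ≤ 22 → b ≤ 22 → c ≤ b → d ≤ c → e ≤ d → Rz a b c d e → G a b c d e := by
    intro a b c d e ha hb hc hd he h
    rcases le_or_gt b a with h0 | h0
    · exact hG _ _ _ _ _ he hd hc h0 ha (bit_true he hd hc h0 ha h)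
    · apply s0
      have h' := h.swap0
      rcases le_or_gt c a with h1 | h1
      · exact hG _ _ _ _ _ he hd h1 h0.le hb (bit_true he hd h1 h0.le hb h')
      · apply s1
        have h' := h'.swap1
        rcases le_or_gt d a with h2 | h2
        · exact hG _ _ _ _ _ he h2 h1.le hc hb (bit_true he h2 h1.le hc hb h')
        · apply s2
          have h' := h'.swap2
          rcases le_or_gt e a with h3 | h3
          · exact hG _ _ _ _ _ h3 h2.le hd hc hb (bit_true h3 h2.le hd hc hb h')
          · apply s3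
            have h' := h'.swap3
            exact hG _ _ _ _ _ h3.le he hd hc hb (bit_true h3.le he hd hc hb h')
  -- step C: c ≥ d ≥ e
  have C : ∀ a b c d e : ℕ, a ≤ 22 → b ≤ 22 → c ≤ 22 → d ≤ c → e ≤ d → Rz a b c d e → G a b c d e := by
    intro a b c d e ha hb hc hd he h
    rcases le_or_gt c b with h1 | h1
    · exact D _ _ _ _ _ ha hb h1 hd he h
    · apply s1
      have h' := h.swap1
      rcases le_or_gt d b with h2 | h2
      · exact D _ _ _ _ _ ha hc h1.le h2 he h'
      · apply s2
        have h' := h'.swap2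
        rcases le_or_gt e b with h3 | h3
        · exact D _ _ _ _ _ ha hc hd h2.le h3 h'
        · apply s3
          have h' := h'.swap3
          exact D _ _ _ _ _ ha hc hd he h3.le h'
  -- step B: d ≥ e
  have B : ∀ a b c d e : ℕ, a ≤ 22 → b ≤ 22 → c ≤ 22 → d ≤ 22 → e ≤ d → Rz a b c d e → G a b c d e := by
    intro a b c d e ha hb hc hd he h
    rcases le_or_gt d c with h2 | h2
    · exact C _ _ _ _ _ ha hb hc h2 he h
    · apply s2
      have h' := h.swap2
      rcases le_or_gt e c with h3 | h3
      · exact C _ _ _ _ _ ha hb hd h2.le h3 h'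
      · apply s3
        have h' := h'.swap3
        exact C _ _ _ _ _ ha hb hd he h3.le h'
  rcases le_or_gt e d with h3 | h3
  · exact B _ _ _ _ _ ha hb hc hd h3 h
  · apply s3
    exact B _ _ _ _ _ ha hb hc he h3.le h.swap3

/-- The Bool check of a statement over the table. -/
def chkG (g : ℕ → ℕ → ℕ → ℕ → ℕ → Bool) : Bool :=
  upTo (fun a => upTo (fun b => upTo (fun c => upTo (fun d => upTo (fun e => not (bit a b c d e) || g a b c d e) d) c)
    b) a) 22

theorem of_chkG {g : ℕ → ℕ → ℕ → ℕ → ℕ → Bool} (h : chkG g = true) (he : e ≤ d) (hd : d ≤ c) (hc : c ≤ b)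
    (hb : b ≤ a) (ha : a ≤ 22) (hbit : bit a b c d e = true) : g a b c d e = true := by
  have := upTo_true (upTo_true (upTo_true (upTo_true (upTo_true h ha) hb) hc) hd) he
  rw [Bool.or_eq_true, Bool.not_eq_true', hbit] at this
  rcases this with h1 | h1
  · exact absurd h1 (by decide)
  · exact h1

end Pool.Agent.Lib.MP_4dc748_co.LL
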