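import Pool.Agent.Lib.MP_4dc748_co.LL.Sound

/-!
# The tables of masks are complete
-/

set_option autoImplicit false

namespace Pool.Agent.Lib.MP_4dc748_co.LL

open Pool.Agent.Lib.MP_4dc748_co.RS

/-- p holds for all pairwise distinct x, y, z, u in F4. -/
def dist4 (p : F4 → F4 → F4 → F4 → Bool) : Bool :=
  decide (∀ x y z u : F4, x = y ∨ x = z ∨ x = u ∨ y = z ∨ y = u ∨ z = u ∨ p x y z u = true)

theorem of_dist4 {p : F4 → F4 → F4 → F4 → Bool} (h : dist4 p = true) {e : F4 → F4}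
    (he : Function.Injective e) : p (e F4.o) (e F4.i) (e F4.w) (e F4.v) = true := by
  have h1 := of_decide_eq_true h (e F4.o) (e F4.i) (e F4.w) (e F4.v)
  rcases h1 with h1 | h1 | h1 | h1 | h1 | h1 | h1
  · exact absurd (he h1) (by decide)
  · exact absurd (he h1) (by decide)
  · exact absurd (he h1) (by decide)
  · exact absurd (he h1) (by decide)
  · exact absurd (he h1) (by decide)
  · exact absurd (he h1) (by decide)
  · exact h1

/-- Membership as a Bool. -/
def memb (m : ℕ) : List ℕ → Bool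
  | [] => false
  | k :: L => Nat.beq m k || memb m L

theorem of_memb {m : ℕ} : ∀ {L : List ℕ}, memb m L = true → m ∈ L
  | [], h => by simp [memb] at h
  | k :: L, h => by
      rw [memb, Bool.or_eq_true] at h
      rcases h with h | h
      · rw [Nat.eq_of_beq_eq_true h]
        simp
      · exact List.mem_cons_of_mem _ (of_memb h)

theorem upTo_true {p : ℕ → Bool} : ∀ {n : ℕ}, upTo p n = true → ∀ {k : ℕ}, k ≤ n → p k = true
  | 0, h, k, hk => by
      rw [Nat.le_zero.1 hk]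
      exact h
  | n + 1, h, k, hk => by
      rw [upTo, Bool.and_eq_true] at h
      rcases Nat.lt_or_ge n k with h1 | h1
      · rw [show k = n + 1 by omega]
        exact h.1
      · exact upTo_true h.2 h1

theorem mem2_chk : upTo (fun c => dist4 fun x y z u => memb (mk2 (pf c x) (pf c y) (pf c z) (pf c u)) (t2 c)) 22
    = true := by decide +kernel

theorem mem3_chk : upTo (fun c => dist4 fun x y z u => memb (mk3 (pf c x) (pf c y) (pf c z) (pf c u)) (t3 c)) 22
    = true := by decide +kernel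

theorem mem4_chk : upTo (fun c => dist4 fun x y z u => memb (mk4 (pf c x) (pf c y) (pf c z) (pf c u)) (t4 c)) 22
    = true := by decide +kernel

theorem mem0_chk : upTo (fun c => dist4 fun x y z u =>
    not (Nat.beq (pf c x) (fv c)) || memb (mk0 (pf c x) (pf c y) (pf c z) (pf c u)) (r0 c)) 22
    = true := by decide +kernel

theorem mem1_chk : upTo (fun c => dist4 fun x y z u =>
    not (Nat.beq (pf c x) (fv c)) || memb (mk1 (pf c x) (pf c y) (pf c z) (pf c u)) (r1 c)) 22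
    = true := by decide +kernel

theorem fv_chk : upTo (fun c => Nat.beq (pf c F4.o) (fv c) || Nat.beq (pf c F4.i) (fv c) ||
    Nat.beq (pf c F4.w) (fv c) || Nat.beq (pf c F4.v) (fv c)) 22 = true := by decide +kernel

theorem exists_fv {c : ℕ} (hc : c ≤ 22) {f : F4 → ℕ} (h : IsPat c f) : ∃ x, f x = fv c := by
  obtain ⟨e, he, h1⟩ := h
  have hs : Function.Surjective e := Finite.surjective_of_injective he
  have h2 := upTo_true fv_chk hc
  simp only [Bool.or_eq_true] at h2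
  have key : ∀ y, pf c y = fv c → ∃ x, f x = fv c := by
    intro y hy
    obtain ⟨x, rfl⟩ := hs y
    exact ⟨x, by rw [h1, hy]⟩
  rcases h2 with ((h2 | h2) | h2) | h2
  · exact key _ (Nat.eq_of_beq_eq_true h2)
  · exact key _ (Nat.eq_of_beq_eq_true h2)
  · exact key _ (Nat.eq_of_beq_eq_true h2)
  · exact key _ (Nat.eq_of_beq_eq_true h2)

theorem mem2 {c : ℕ} (hc : c ≤ 22) {f : F4 → ℕ} (h : IsPat c f) :
    mk2 (f F4.o) (f F4.i) (f F4.w) (f F4.v) ∈ t2 c := by
  obtain ⟨e, he, h1⟩ := h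
  rw [h1, h1, h1, h1]
  exact of_memb (of_dist4 (upTo_true mem2_chk hc) he)

theorem mem3 {c : ℕ} (hc : c ≤ 22) {f : F4 → ℕ} (h : IsPat c f) :
    mk3 (f F4.o) (f F4.i) (f F4.w) (f F4.v) ∈ t3 c := by
  obtain ⟨e, he, h1⟩ := h
  rw [h1, h1, h1, h1]
  exact of_memb (of_dist4 (upTo_true mem3_chk hc) he)

theorem mem4 {c : ℕ} (hc : c ≤ 22) {f : F4 → ℕ} (h : IsPat c f) :
    mk4 (f F4.o) (f F4.i) (f F4.w) (f F4.v) ∈ t4 c := by
  obtain ⟨e, he, h1⟩ := h
  rw [h1, h1, h1, h1]
  exact of_memb (of_dist4 (upTo_true mem4_chk hc) he)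

theorem mem0 {c : ℕ} (hc : c ≤ 22) {f : F4 → ℕ} (h : IsPat c f) (ho : f F4.o = fv c) :
    mk0 (f F4.o) (f F4.i) (f F4.w) (f F4.v) ∈ r0 c := by
  obtain ⟨e, he, h1⟩ := h
  rw [h1] at ho
  rw [h1, h1, h1, h1]
  have h2 := of_dist4 (upTo_true mem0_chk hc) he
  rw [Bool.or_eq_true, Bool.not_eq_true', ho] at h2
  rcases h2 with h2 | h2
  · exact absurd (Nat.beq_refl (fv c)) (by rw [h2]; decide)
  · rw [ho]
    exact of_memb h2

theorem mem1 {c : ℕ} (hc : c ≤ 22) {f : F4 → ℕ} (h : IsPat c f) (ho : f F4.o = fv c) :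
    mk1 (f F4.o) (f F4.i) (f F4.w) (f F4.v) ∈ r1 c := by
  obtain ⟨e, he, h1⟩ := h
  rw [h1] at ho
  rw [h1, h1, h1, h1]
  have h2 := of_dist4 (upTo_true mem1_chk hc) he
  rw [Bool.or_eq_true, Bool.not_eq_true', ho] at h2
  rcases h2 with h2 | h2
  · exact absurd (Nat.beq_refl (fv c)) (by rw [h2]; decide)
  · rw [ho]
    exact of_memb h2

theorem o_add : ∀ y : F4, F4.o + y = y := by decide

theorem s1t {a m : ℕ} {L : List ℕ} (h : m ∈ L) (ho : ok (a + m) = true) : s1 a L = true := s1_true h ho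

theorem s2t {A L : List ℕ} {a m : ℕ} (h : m ∈ L) (ho : ok (a + m) = true) (hs : s1 (a + m) A = true) :
    s2 A a L = true := s2_true h ho hs

theorem s3t {A B L : List ℕ} {a m : ℕ} (h : m ∈ L) (ho : ok (a + m) = true) (hs : s2 A (a + m) B = true) :
    s3 A B a L = true := s3_true h ho hs

theorem s4t {A B C L : List ℕ} {a m : ℕ} (h : m ∈ L) (ho : ok (a + m) = true) (hs : s3 A B (a + m) C = true) :
    s4 A B C a L = true := s4_true h ho hs

theorem s5t {A B C D L : List ℕ} {a m : ℕ} (h : m ∈ L) (ho : ok (a + m) = true)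
    (hs : s4 A B C (a + m) D = true) : s5 A B C D a L = true := s5_true h ho hs

/-- Soundness of the whole search, for abstract masks. -/
theorem s5all {A B C D E : List ℕ} {m0 m1 m2 m3 m4 : ℕ} (h0 : m0 ∈ E) (h1 : m1 ∈ D) (h2 : m2 ∈ C) (h3 : m3 ∈ B)
    (h4 : m4 ∈ A) (o0 : ok m0 = true) (o1 : ok (m0 + m1) = true) (o2 : ok (m0 + m1 + m2) = true)
    (o3 : ok (m0 + m1 + m2 + m3) = true) (o4 : ok (m0 + m1 + m2 + m3 + m4) = true) :
    s5 A B C D 0 E = true := by
  refine s5t h0 (by rw [Nat.zero_add]; exact o0) ?_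
  rw [Nat.zero_add]
  exact s4t h1 o1 (s3t h2 o2 (s2t h3 o3 (s1t h4 o4)))

theorem okz0 {a b c d e : ℕ} (h : ok (a + b + c + d + e) = true) (hb : b = 0) (hc : c = 0) (hd : d = 0)
    (he : e = 0) : ok a = true := by
  subst hb hc hd he
  exact h

theorem okz1 {a b c d e : ℕ} (h : ok (a + b + c + d + e) = true) (hc : c = 0) (hd : d = 0)
    (he : e = 0) : ok (a + b) = true := by
  subst hc hd he
  exact h

theorem okz2 {a b c d e : ℕ} (h : ok (a + b + c + d + e) = true) (hd : d = 0)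
    (he : e = 0) : ok (a + b + c) = true := by
  subst hd he
  exact h

theorem okz3 {a b c d e : ℕ} (h : ok (a + b + c + d + e) = true) (he : e = 0) : ok (a + b + c + d) = true := by
  subst he
  exact h

/-- The search finds every realisation. -/
theorem srch_true {a b c d e : ℕ} (ha : a ≤ 22) (hb : b ≤ 22) (hc : c ≤ 22) (hd : d ≤ 22) (he : e ≤ 22)
    (h : Rz a b c d e) : srch a b c d e = true := by
  obtain ⟨n0, n1, n2, n3, n4, h, h0, h1, h2, h3, h4⟩ := h
  obtain ⟨y, hy⟩ := exists_fv ha h0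
  obtain ⟨x, hx⟩ := exists_fv hb h1
  have ht := h.translate x y
  have g0 := h0.add y
  have g1 := h1.add x
  have g2 := h2.add (x + y)
  have g3 := h3.add (x + F4.w * y)
  have g4 := h4.add (x + F4.v * y)
  have y0 : (fun z => n0 (z + y)) F4.o = fv a := by
    show n0 (F4.o + y) = fv a
    rw [o_add, hy]
  have x0 : (fun z => n1 (z + x)) F4.o = fv b := by
    show n1 (F4.o + x) = fv b
    rw [o_add, hx]
  generalize (fun z => n0 (z + y)) = f0 at ht g0 y0
  generalize (fun z => n1 (z + x)) = f1 at ht g1 x0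
  generalize (fun z => n2 (z + (x + y))) = f2 at ht g2
  generalize (fun z => n3 (z + (x + F4.w * y))) = f3 at ht g3
  generalize (fun z => n4 (z + (x + F4.v * y))) = f4 at ht g4
  have z : F4 → ℕ := fun _ => 0
  have k0 : Ok f0 (fun _ => 0) (fun _ => 0) (fun _ => 0) (fun _ => 0) :=
    ht.mono (fun _ => le_rfl) (fun _ => Nat.zero_le _) (fun _ => Nat.zero_le _) (fun _ => Nat.zero_le _)
      (fun _ => Nat.zero_le _)
  have k1 : Ok f0 f1 (fun _ => 0) (fun _ => 0) (fun _ => 0) :=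
    ht.mono (fun _ => le_rfl) (fun _ => le_rfl) (fun _ => Nat.zero_le _) (fun _ => Nat.zero_le _)
      (fun _ => Nat.zero_le _)
  have k2 : Ok f0 f1 f2 (fun _ => 0) (fun _ => 0) :=
    ht.mono (fun _ => le_rfl) (fun _ => le_rfl) (fun _ => le_rfl) (fun _ => Nat.zero_le _)
      (fun _ => Nat.zero_le _)
  have k3 : Ok f0 f1 f2 f3 (fun _ => 0) :=
    ht.mono (fun _ => le_rfl) (fun _ => le_rfl) (fun _ => le_rfl) (fun _ => le_rfl)
      (fun _ => Nat.zero_le _)
  have o0 := k0.ok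
  have o1 := k1.ok
  have o2 := k2.ok
  have o3 := k3.ok
  have o4 := ht.ok
  have e1 : mk1 0 0 0 0 = 0 := by decide
  have e2 : mk2 0 0 0 0 = 0 := by decide
  have e3 : mk3 0 0 0 0 = 0 := by decide
  have e4 : mk4 0 0 0 0 = 0 := by decide
  replace o0 := okz0 o0 e1 e2 e3 e4
  replace o1 := okz1 o1 e2 e3 e4
  replace o2 := okz2 o2 e3 e4
  replace o3 := okz3 o3 e4
  have m0 := mem0 ha g0 y0
  have m1 := mem1 hb g1 x0
  have m2 := mem2 hc g2
  have m3 := mem3 hd g3
  have m4 := mem4 he g4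
  generalize mk0 (f0 F4.o) (f0 F4.i) (f0 F4.w) (f0 F4.v) = k0 at *
  generalize mk1 (f1 F4.o) (f1 F4.i) (f1 F4.w) (f1 F4.v) = k1 at *
  generalize mk2 (f2 F4.o) (f2 F4.i) (f2 F4.w) (f2 F4.v) = k2 at *
  generalize mk3 (f3 F4.o) (f3 F4.i) (f3 F4.w) (f3 F4.v) = k3 at *
  generalize mk4 (f4 F4.o) (f4 F4.i) (f4 F4.w) (f4 F4.v) = k4 at *
  exact s5all m0 m1 m2 m3 m4 o0 o1 o2 o3 o4

end Pool.Agent.Lib.MP_4dc748_co.LL
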