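import Pool.Agent.Lib.MP_4dc748_co.RS.F4

/-!
# The lines over one line class

The five classes on a line class have label functions n0, .., n4 : F4 → ℕ (numbers of points of the four segments).
A line over the class takes the labels t, s, s + t, s + w t, s + v t. Ok: every line has at most 7 points.
Ok is invariant under all permutations of the five classes, up to relabelling, and under translations.
-/

set_option autoImplicit false

namespace Pool.Agent.Lib.MP_4dc748_co.LL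

open Pool.Agent.Lib.MP_4dc748_co.RS

/-- All 16 lines have at most 7 points. -/
def Ok (n0 n1 n2 n3 n4 : F4 → ℕ) : Prop :=
  ∀ s t : F4, n0 t + n1 s + n2 (s + t) + n3 (s + F4.w * t) + n4 (s + F4.v * t) ≤ 7

/-- x ↦ x^2 -/
def sq (x : F4) : F4 := x * x
/-- x ↦ w x^2 -/
def wsq (x : F4) : F4 := F4.w * (x * x)
/-- x ↦ v x^2 -/
def vsq (x : F4) : F4 := F4.v * (x * x)

theorem sq_inj : Function.Injective sq := by
  intro x y
  revert x y
  decide
theorem wsq_inj : Function.Injective wsq := by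
  intro x y
  revert x y
  decide
theorem vsq_inj : Function.Injective vsq := by
  intro x y
  revert x y
  decide

variable {n0 n1 n2 n3 n4 m0 m1 m2 m3 m4 : F4 → ℕ}

theorem Ok.mono (h : Ok n0 n1 n2 n3 n4) (h0 : ∀ x, m0 x ≤ n0 x) (h1 : ∀ x, m1 x ≤ n1 x) (h2 : ∀ x, m2 x ≤ n2 x)
    (h3 : ∀ x, m3 x ≤ n3 x) (h4 : ∀ x, m4 x ≤ n4 x) : Ok m0 m1 m2 m3 m4 := by
  intro s t
  have := h s t
  have e0 := h0 t
  have e1 := h1 s
  have e2 := h2 (s + t)
  have e3 := h3 (s + F4.w * t)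
  have e4 := h4 (s + F4.v * t)
  omega

theorem Ok.swap0 (h : Ok n0 n1 n2 n3 n4) :
    Ok (n1 ∘ sq) (n0 ∘ sq) (n2 ∘ sq) (n3 ∘ wsq) (n4 ∘ vsq) := by
  intro s t
  have h1 := h (t * t) (s * s)
  have e2 : t * t + s * s = sq (s + t) := by clear * -; revert s t; decide
  have e3 : t * t + F4.w * (s * s) = wsq (s + F4.w * t) := by clear * -; revert s t; decide
  have e4 : t * t + F4.v * (s * s) = vsq (s + F4.v * t) := by clear * -; revert s t; decide
  rw [e2, e3, e4] at h1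
  have e0 : t * t = sq t := rfl
  have e1 : s * s = sq s := rfl
  rw [e0, e1] at h1
  simp only [Function.comp_apply]
  omega

theorem Ok.swap1 (h : Ok n0 n1 n2 n3 n4) :
    Ok (n0 ∘ sq) (n2 ∘ sq) (n1 ∘ sq) (n3 ∘ sq) (n4 ∘ sq) := by
  intro s t
  have h1 := h (s * s + t * t) (t * t)
  have e2 : s * s + t * t + t * t = sq s := by clear * -; revert s t; decide
  have e3 : s * s + t * t + F4.w * (t * t) = sq (s + F4.w * t) := by clear * -; revert s t; decide
  have e4 : s * s + t * t + F4.v * (t * t) = sq (s + F4.v * t) := by clear * -; revert s t; decide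
  have e1 : s * s + t * t = sq (s + t) := by clear * -; revert s t; decide
  rw [e2, e3, e4, e1] at h1
  have e0 : t * t = sq t := rfl
  rw [e0] at h1
  simp only [Function.comp_apply]
  omega

theorem Ok.swap2 (h : Ok n0 n1 n2 n3 n4) :
    Ok (n0 ∘ vsq) (n1 ∘ sq) (n3 ∘ sq) (n2 ∘ sq) (n4 ∘ sq) := by
  intro s t
  have h1 := h (s * s) (F4.v * (t * t))
  have e2 : s * s + F4.v * (t * t) = sq (s + F4.w * t) := by clear * -; revert s t; decide
  have e3 : s * s + F4.w * (F4.v * (t * t)) = sq (s + t) := by clear * -; revert s t; decide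
  have e4 : s * s + F4.v * (F4.v * (t * t)) = sq (s + F4.v * t) := by clear * -; revert s t; decide
  rw [e2, e3, e4] at h1
  have e0 : F4.v * (t * t) = vsq t := rfl
  have e1 : s * s = sq s := rfl
  rw [e0, e1] at h1
  simp only [Function.comp_apply]
  omega

theorem Ok.swap3 (h : Ok n0 n1 n2 n3 n4) :
    Ok (n0 ∘ sq) (n1 ∘ sq) (n2 ∘ sq) (n4 ∘ sq) (n3 ∘ sq) := by
  intro s t
  have h1 := h (s * s) (t * t)
  have e2 : s * s + t * t = sq (s + t) := by clear * -; revert s t; decide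
  have e3 : s * s + F4.w * (t * t) = sq (s + F4.v * t) := by clear * -; revert s t; decide
  have e4 : s * s + F4.v * (t * t) = sq (s + F4.w * t) := by clear * -; revert s t; decide
  rw [e2, e3, e4] at h1
  have e0 : t * t = sq t := rfl
  have e1 : s * s = sq s := rfl
  rw [e0, e1] at h1
  simp only [Function.comp_apply]
  omega

/-- Translations. -/
theorem Ok.translate (h : Ok n0 n1 n2 n3 n4) (a b : F4) :
    Ok (fun x => n0 (x + b)) (fun x => n1 (x + a)) (fun x => n2 (x + (a + b))) (fun x => n3 (x + (a + F4.w * b)))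
      (fun x => n4 (x + (a + F4.v * b))) := by
  intro s t
  have h1 := h (s + a) (t + b)
  have e2 : s + a + (t + b) = s + t + (a + b) := by ring
  have e3 : s + a + F4.w * (t + b) = s + F4.w * t + (a + F4.w * b) := by ring
  have e4 : s + a + F4.v * (t + b) = s + F4.v * t + (a + F4.v * b) := by ring
  rw [e2, e3, e4] at h1
  exact h1

/-- The sorted pattern with code c. -/
def pq : ℕ → ℕ × ℕ × ℕ × ℕ
  | 0 => (0, 0, 0, 0)
  | 1 => (1, 0, 0, 0)
  | 2 => (1, 1, 0, 0)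
  | 3 => (1, 1, 1, 0)
  | 4 => (1, 1, 1, 1)
  | 5 => (2, 0, 0, 0)
  | 6 => (2, 1, 0, 0)
  | 7 => (2, 1, 1, 0)
  | 8 => (2, 1, 1, 1)
  | 9 => (2, 2, 0, 0)
  | 10 => (2, 2, 1, 0)
  | 11 => (2, 2, 1, 1)
  | 12 => (2, 2, 2, 0)
  | 13 => (2, 2, 2, 1)
  | 14 => (2, 2, 2, 2)
  | 15 => (3, 0, 0, 0)
  | 16 => (3, 1, 0, 0)
  | 17 => (3, 1, 1, 0)
  | 18 => (3, 2, 0, 0)
  | 19 => (3, 3, 0, 0)
  | 20 => (4, 0, 0, 0)
  | 21 => (4, 3, 0, 0)
  | _ => (4, 4, 0, 0)

/-- The pattern as a function: largest entry at o, .., smallest at v. -/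
def pf (c : ℕ) : F4 → ℕ
  | F4.o => (pq c).1
  | F4.i => (pq c).2.1
  | F4.w => (pq c).2.2.1
  | F4.v => (pq c).2.2.2

/-- f has the pattern c. -/
def IsPat (c : ℕ) (f : F4 → ℕ) : Prop :=
  ∃ e : F4 → F4, Function.Injective e ∧ ∀ x, f x = pf c (e x)

theorem IsPat.comp {c : ℕ} {f : F4 → ℕ} (h : IsPat c f) {r : F4 → F4} (hr : Function.Injective r) :
    IsPat c (f ∘ r) := by
  obtain ⟨e, he, h1⟩ := h
  exact ⟨e ∘ r, he.comp hr, fun x => h1 (r x)⟩

theorem IsPat.add {c : ℕ} {f : F4 → ℕ} (h : IsPat c f) (a : F4) : IsPat c (fun x => f (x + a)) :=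
  h.comp (r := fun x => x + a) (add_left_injective a)

/-- The five classes have label functions with the patterns a, .., e, and Ok. -/
def Rz (a b c d e : ℕ) : Prop :=
  ∃ n0 n1 n2 n3 n4 : F4 → ℕ, Ok n0 n1 n2 n3 n4 ∧ IsPat a n0 ∧ IsPat b n1 ∧ IsPat c n2 ∧ IsPat d n3 ∧ IsPat e n4

variable {a b c d e : ℕ}

theorem Rz.swap0 (h : Rz a b c d e) : Rz b a c d e := by
  obtain ⟨n0, n1, n2, n3, n4, h, h0, h1, h2, h3, h4⟩ := h
  exact ⟨_, _, _, _, _, h.swap0, h1.comp sq_inj, h0.comp sq_inj, h2.comp sq_inj, h3.comp wsq_inj, h4.comp vsq_inj⟩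

theorem Rz.swap1 (h : Rz a b c d e) : Rz a c b d e := by
  obtain ⟨n0, n1, n2, n3, n4, h, h0, h1, h2, h3, h4⟩ := h
  exact ⟨_, _, _, _, _, h.swap1, h0.comp sq_inj, h2.comp sq_inj, h1.comp sq_inj, h3.comp sq_inj, h4.comp sq_inj⟩

theorem Rz.swap2 (h : Rz a b c d e) : Rz a b d c e := by
  obtain ⟨n0, n1, n2, n3, n4, h, h0, h1, h2, h3, h4⟩ := h
  exact ⟨_, _, _, _, _, h.swap2, h0.comp vsq_inj, h1.comp sq_inj, h3.comp sq_inj, h2.comp sq_inj, h4.comp sq_inj⟩

theorem Rz.swap3 (h : Rz a b c d e) : Rz a b c e d := by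
  obtain ⟨n0, n1, n2, n3, n4, h, h0, h1, h2, h3, h4⟩ := h
  exact ⟨_, _, _, _, _, h.swap3, h0.comp sq_inj, h1.comp sq_inj, h2.comp sq_inj, h4.comp sq_inj, h3.comp sq_inj⟩

/-- q is obtained from c by lowering entries. -/
def Le (q c : ℕ) : Prop :=
  (pq q).1 ≤ (pq c).1 ∧ (pq q).2.1 ≤ (pq c).2.1 ∧ (pq q).2.2.1 ≤ (pq c).2.2.1 ∧ (pq q).2.2.2 ≤ (pq c).2.2.2

instance (q c : ℕ) : Decidable (Le q c) := by
  unfold Le
  infer_instance

theorem pf_le {q c : ℕ} (h : Le q c) (x : F4) : pf q x ≤ pf c x := by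
  obtain ⟨h1, h2, h3, h4⟩ := h
  cases x
  exacts [h1, h2, h3, h4]

theorem IsPat.lower {q c : ℕ} {f : F4 → ℕ} (h : IsPat c f) (hq : Le q c) :
    ∃ g : F4 → ℕ, IsPat q g ∧ ∀ x, g x ≤ f x := by
  obtain ⟨e, he, h1⟩ := h
  refine ⟨fun x => pf q (e x), ⟨e, he, fun x => rfl⟩, fun x => ?_⟩
  rw [h1 x]
  exact pf_le hq (e x)

theorem Rz.low0 {q : ℕ} (h : Rz a b c d e) (hq : Le q a) : Rz q b c d e := by
  obtain ⟨n0, n1, n2, n3, n4, h, h0, h1, h2, h3, h4⟩ := h
  obtain ⟨g, hg, hle⟩ := h0.lower hq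
  exact ⟨g, n1, n2, n3, n4, h.mono hle (fun _ => le_rfl) (fun _ => le_rfl) (fun _ => le_rfl) (fun _ => le_rfl),
    hg, h1, h2, h3, h4⟩

theorem Rz.low1 {q : ℕ} (h : Rz a b c d e) (hq : Le q b) : Rz a q c d e := (h.swap0.low0 hq).swap0

theorem Rz.low2 {q : ℕ} (h : Rz a b c d e) (hq : Le q c) : Rz a b q d e := (h.swap1.low1 hq).swap1

theorem Rz.low3 {q : ℕ} (h : Rz a b c d e) (hq : Le q d) : Rz a b c q e := (h.swap2.low2 hq).swap2

theorem Rz.low4 {q : ℕ} (h : Rz a b c d e) (hq : Le q e) : Rz a b c d q := (h.swap3.low3 hq).swap3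

end Pool.Agent.Lib.MP_4dc748_co.LL
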