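import Pool.Agent.Lib.MP_4dc748_co.LL.Cert

/-!
# The point inequalities by dynamic programming, and the main inequality of a certificate
-/

set_option autoImplicit false

namespace Pool.Agent.Lib.MP_4dc748_co.LL

open Pool.Agent.Lib.MP_4dc748_co.RS

/-- Infinity. -/
def inf : ℕ := 1099511627776

/-- Minimum of the sums of corresponding entries. -/
def mz : List ℕ → List ℕ → ℕ
  | a :: A, b :: B => cond (Nat.ble (Nat.add a b) (mz A B)) (Nat.add a b) (mz A B)
  | _, _ => inf

/-- Min-plus convolution. -/
def cv (P : List ℕ) : List ℕ → List ℕ → List ℕ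
  | _, [] => []
  | acc, t :: T => mz P (t :: acc) :: cv P (t :: acc) T

/-- The charges for the weights u + k, .., u. -/
def psi (F c u : ℕ) : ℕ → List ℕ
  | 0 => [ph F c u]
  | k + 1 => ph F c (Nat.add u (k + 1)) :: psi F c u k

/-- Packed largest entries of the patterns. -/
def mxt (c : ℕ) : ℕ := Nat.land (Nat.shiftRight 0x44433333222222222211110 (Nat.mul 4 c)) 15

/-- The dynamic program over the five directions. -/
def dp (F u : ℕ) : List ℕ → List ℕ → List ℕ
  | [], T => T
  | c :: t, T => dp F u t (cv (psi F c u (Nat.sub 28 (Nat.mul 4 (mxt c)))) [] T)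

/-- Sum of the largest entries. -/
def sumMx : List ℕ → ℕ
  | [] => 0
  | c :: t => Nat.add (mxt c) (sumMx t)

/-- The check for one type. -/
def Cert.pointT (D : Cert) (t : List ℕ) : Bool :=
  let u := szt (t.headD 0)
  let S := Nat.sub (Nat.add 41 u) (Nat.mul 4 (sumMx t))
  Nat.blt D.umax u || Nat.ble (Nat.add (av D.al u) 163840)
    (Nat.add ((dp D.phi u t (0 :: List.replicate S inf)).getD S inf) 2147483648)

/-- The check for all types. -/
def Cert.pointOk (D : Cert) : Bool := types.all D.pointT

theorem mz_le : ∀ {P L : List ℕ} {d : ℕ}, d < P.length → d < L.length → mz P L ≤ P.getD d 0 + L.getD d 0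
  | [], L, d, h, _ => absurd h (by simp)
  | a :: A, [], d, _, h => absurd h (by simp)
  | a :: A, b :: B, 0, _, _ => by
      simp only [mz, Nat.add_eq, List.getD_cons_zero]
      rcases hx : Nat.ble (a + b) (mz A B) with _ | _
      · rw [cond_false]
        have h1 : ¬ a + b ≤ mz A B := fun h1 => by
          rw [Nat.ble_eq_true_of_le h1] at hx
          exact absurd hx (by decide)
        omega
      · rw [cond_true]
  | a :: A, b :: B, d + 1, h1, h2 => by
      have ih := mz_le (P := A) (L := B) (d := d) (by simpa using h1) (by simpa using h2)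
      simp only [mz, Nat.add_eq, List.getD_cons_succ]
      rcases hx : Nat.ble (a + b) (mz A B) with _ | _
      · rw [cond_false]
        exact ih
      · rw [cond_true]
        exact (Nat.le_of_ble_eq_true hx).trans ih

theorem cv_length (P : List ℕ) : ∀ (T acc : List ℕ), (cv P acc T).length = T.length
  | [], _ => rfl
  | t :: T, acc => by rw [cv, List.length_cons, cv_length P T, List.length_cons]

theorem cv_le (P : List ℕ) : ∀ (T acc : List ℕ) (s : ℕ), s < T.length →
    (∀ d, d ≤ s → d < P.length → (cv P acc T).getD s inf ≤ P.getD d 0 + T.getD (s - d) 0) ∧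
    (∀ d, s < d → d < P.length → d - s - 1 < acc.length →
      (cv P acc T).getD s inf ≤ P.getD d 0 + acc.getD (d - s - 1) 0)
  | [], _, s, h => absurd h (by simp)
  | t :: T, acc, 0, _ => by
      constructor
      · intro d hd hP
        obtain rfl : d = 0 := by omega
        rw [cv, List.getD_cons_zero]
        exact mz_le hP (by simp)
      · intro d hd hP hacc
        rw [cv, List.getD_cons_zero]
        have h1 : (t :: acc).getD d 0 = acc.getD (d - 0 - 1) 0 := by
          obtain ⟨e, rfl⟩ : ∃ e, d = e + 1 := ⟨d - 1, by omega⟩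
          rw [List.getD_cons_succ]
          simp
        rw [← h1]
        exact mz_le hP (by rw [List.length_cons]; omega)
  | t :: T, acc, s + 1, h => by
      have ih := cv_le P T (t :: acc) s (by simpa using h)
      constructor
      · intro d hd hP
        rw [cv, List.getD_cons_succ]
        rcases Nat.lt_or_ge s d with h1 | h1
        · obtain rfl : d = s + 1 := by omega
          have h2 := ih.2 (s + 1) (by omega) hP (by simp)
          simpa using h2
        · have h2 := ih.1 d h1 hP
          have h3 : (t :: T).getD (s + 1 - d) 0 = T.getD (s - d) 0 := by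
            rw [show s + 1 - d = (s - d) + 1 by omega, List.getD_cons_succ]
          rw [h3]
          exact h2
      · intro d hd hP hacc
        rw [cv, List.getD_cons_succ]
        have h2 := ih.2 d (by omega) hP (by rw [List.length_cons]; omega)
        have h3 : (t :: acc).getD (d - s - 1) 0 = acc.getD (d - (s + 1) - 1) 0 := by
          obtain ⟨e, he⟩ : ∃ e, d - s - 1 = e + 1 := ⟨d - s - 2, by omega⟩
          rw [he, List.getD_cons_succ]
          congr 1
          omega
        rw [← h3]
        exact h2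

theorem psi_length (F c u : ℕ) : ∀ k, (psi F c u k).length = k + 1
  | 0 => rfl
  | k + 1 => by rw [psi, List.length_cons, psi_length F c u k]

theorem psi_getD (F c u : ℕ) : ∀ k d, d ≤ k → (psi F c u k).getD d 0 = ph F c (u + k - d)
  | 0, d, h => by
      obtain rfl : d = 0 := by omega
      simp [psi]
  | k + 1, 0, _ => by simp [psi]
  | k + 1, d + 1, h => by
      rw [psi, List.getD_cons_succ, psi_getD F c u k d (by omega)]
      congr 1
      omega

/-- The dynamic program is a lower bound. -/
theorem dp_le (F u : ℕ) : ∀ (L : List (ℕ × ℕ)) (T : List ℕ) (s : ℕ), (∀ x ∈ L, x.2 ≤ 28 - 4 * mxt x.1) →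
    s + (L.map Prod.snd).sum < T.length →
    (dp F u (L.map Prod.fst) T).getD (s + (L.map Prod.snd).sum) inf ≤
      T.getD s inf + (L.map fun x => ph F x.1 (u + (28 - 4 * mxt x.1) - x.2)).sum
  | [], T, s, _, _ => by simp [dp]
  | x :: L, T, s, h, hs => by
      simp only [List.map_cons, List.sum_cons] at hs ⊢
      rw [dp]
      set T' := cv (psi F x.1 u (Nat.sub 28 (Nat.mul 4 (mxt x.1)))) [] T with hT'
      have hlen : T'.length = T.length := cv_length _ _ _
      have hx : x.2 ≤ 28 - 4 * mxt x.1 := h x (by simp)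
      have ih := dp_le F u L T' (s + x.2) (fun y hy => h y (by simp [hy])) (by rw [hlen]; omega)
      have h1 := (cv_le (psi F x.1 u (Nat.sub 28 (Nat.mul 4 (mxt x.1)))) T [] (s + x.2) (by omega)).1 x.2
        (by omega) (by
          rw [psi_length]
          have e : Nat.sub 28 (Nat.mul 4 (mxt x.1)) = 28 - 4 * mxt x.1 := rfl
          rw [e]
          omega)
      rw [← hT'] at h1
      have e : Nat.sub 28 (Nat.mul 4 (mxt x.1)) = 28 - 4 * mxt x.1 := rfl
      rw [e, psi_getD _ _ _ _ _ hx, show s + x.2 - x.2 = s by omega] at h1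
      have h2 : T.getD s 0 = T.getD s inf := by
        rw [List.getD_eq_getElem _ _ (by omega), List.getD_eq_getElem _ _ (by omega)]
      rw [h2] at h1
      rw [show s + (x.2 + (L.map Prod.snd).sum) = s + x.2 + (L.map Prod.snd).sum by omega]
      omega

/-- Lifting a permutation of the image of a list. -/
theorem lift_perm {α β : Type} (f : α → β) : ∀ {l t : List β}, l.Perm t → ∀ {L : List α}, L.map f = l →
    ∃ L' : List α, L'.Perm L ∧ L'.map f = t := by
  intro l t h
  induction h with
  | nil => exact fun h => ⟨_, List.Perm.refl _, h⟩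
  | cons x _ ih =>
    intro L hL
    rcases L with _ | ⟨y, L⟩
    · simp at hL
    · simp only [List.map_cons, List.cons.injEq] at hL
      obtain ⟨L', h1, h2⟩ := ih hL.2
      exact ⟨y :: L', h1.cons y, by rw [List.map_cons, h2, hL.1]⟩
  | swap x y l =>
    intro L hL
    rcases L with _ | ⟨a, _ | ⟨b, L⟩⟩
    · simp at hL
    · simp at hL
    · simp only [List.map_cons, List.cons.injEq] at hL
      exact ⟨b :: a :: L, List.Perm.swap _ _ _, by simp [hL.1, hL.2.1, hL.2.2]⟩
  | trans _ _ ih1 ih2 =>
    intro L hL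
    obtain ⟨L', h1, h2⟩ := ih1 hL
    obtain ⟨L'', h3, h4⟩ := ih2 h2
    exact ⟨L'', h3.trans h1, h4⟩

theorem mxt_eq : ∀ c ≤ 22, mxt c = (pq c).1 := by decide +kernel

theorem mxt_le : ∀ c ≤ 22, 4 * mxt c ≤ 28 := by decide +kernel

theorem types_chk : ∀ t ∈ types, t.length = 5 ∧ (∀ c ∈ t, c ≤ 22 ∧ szt c = szt (t.headD 0)) ∧
    4 * sumMx t ≤ 41 + szt (t.headD 0) := by decide +kernel

theorem sumMx_eq : ∀ t : List ℕ, sumMx t = (t.map mxt).sum
  | [] => rfl
  | c :: t => by
      rw [sumMx, List.map_cons, List.sum_cons, sumMx_eq t]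
      rfl

/-- The point inequality. -/
theorem point_le {D : Cert} (h : D.pointOk = true) {u : ℕ} (hu : u ≤ D.umax) {t : List ℕ} (ht : t ∈ types)
    {L : List (ℕ × ℕ)} (hL : L.map Prod.fst = t) (hLu : ∀ x ∈ L, sz x.1 = u)
    (hb : ∀ x ∈ L, 4 * (pq x.1).1 + x.2 ≤ 28 + u ∧ u ≤ x.2) (hs : (L.map Prod.snd).sum = 99 + 4 * u) :
    D.alZ u ≤ (L.map fun x => D.phiZ x.1 x.2).sum := by
  obtain ⟨h5, hc, hmx⟩ := types_chk t ht
  have hT : D.pointT t = true := List.all_eq_true.1 h t ht
  have hlen : L.length = 5 := by rw [← h5, ← hL, List.length_map]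
  obtain ⟨c0, t', rfl⟩ : ∃ c0 t', t = c0 :: t' := by
    rcases t with _ | ⟨c0, t'⟩
    · simp at h5
    · exact ⟨c0, t', rfl⟩
  have hu0 : szt c0 = u := by
    rcases L with _ | ⟨x, L⟩
    · simp at hlen
    · simp only [List.map_cons, List.cons.injEq] at hL
      rw [← hL.1, szt_eq _ (by rw [hL.1]; exact (hc c0 (by simp)).1)]
      exact hLu x (by simp)
  have hc22 : ∀ x ∈ L, x.1 ≤ 22 := fun x hx => (hc x.1 (by rw [← hL]; exact List.mem_map_of_mem hx)).1
  unfold Cert.pointT at hT
  simp only [List.headD_cons, hu0] at hT hmx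
  rw [Bool.or_eq_true] at hT
  have hT2 : Nat.ble (Nat.add (av D.al u) 163840) (Nat.add ((dp D.phi u (c0 :: t')
      (0 :: List.replicate (Nat.sub (Nat.add 41 u) (Nat.mul 4 (sumMx (c0 :: t')))) inf)).getD
        (Nat.sub (Nat.add 41 u) (Nat.mul 4 (sumMx (c0 :: t')))) inf) 2147483648) = true := by
    rcases hT with hT | hT
    · exfalso
      have : D.umax < u := by simpa using hT
      omega
    · exact hT
  have hT3 := Nat.le_of_ble_eq_true hT2
  set S := Nat.sub (Nat.add 41 u) (Nat.mul 4 (sumMx (c0 :: t'))) with hS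
  have hS' : S = 41 + u - 4 * sumMx (c0 :: t') := rfl
  -- the slacks
  let L2 : List (ℕ × ℕ) := L.map fun x => (x.1, 28 + u - 4 * mxt x.1 - x.2)
  have hL2 : L2.map Prod.fst = c0 :: t' := by
    rw [← hL]
    simp [L2]
  have key : ∀ M : List (ℕ × ℕ), (∀ x ∈ M, x.1 ≤ 22 ∧ 4 * mxt x.1 + x.2 ≤ 28 + u) →
      (M.map fun x => 28 + u - 4 * mxt x.1 - x.2).sum + (M.map Prod.snd).sum + 4 * (M.map fun x => mxt x.1).sum =
        M.length * (28 + u) := by
    intro M
    induction M with
    | nil => simp
    | cons x M ih =>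
      intro hM
      have h1 := ih fun y hy => hM y (by simp [hy])
      have h2 := (hM x (by simp)).2
      simp only [List.map_cons, List.sum_cons, List.length_cons]
      have h3 : (M.length + 1) * (28 + u) = M.length * (28 + u) + (28 + u) := by ring
      rw [h3]
      omega
  have hsum := key L fun x hx => ⟨hc22 x hx, by rw [mxt_eq _ (hc22 x hx)]; exact (hb x hx).1⟩
  have hm : (L.map fun x => mxt x.1).sum = sumMx (c0 :: t') := by
    rw [sumMx_eq, ← hL, List.map_map]
    rfl
  rw [hm, hs, hlen] at hsum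
  have hL2s : (L2.map Prod.snd).sum = S := by
    have e : L2.map Prod.snd = L.map fun x => 28 + u - 4 * mxt x.1 - x.2 := by simp [L2]
    rw [e]
    omega
  have hdp := dp_le D.phi u L2 (0 :: List.replicate S inf) 0 (by
    intro x hx
    obtain ⟨y, hy, rfl⟩ := List.mem_map.1 hx
    have h1 := (hb y hy).2
    have h2 := mxt_le y.1 (hc22 y hy)
    show 28 + u - 4 * mxt y.1 - y.2 ≤ 28 - 4 * mxt y.1
    omega) (by rw [hL2s, List.length_cons, List.length_replicate]; omega)
  rw [hL2, hL2s, Nat.zero_add, List.getD_cons_zero, Nat.zero_add] at hdp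
  have e2 : (L2.map fun x => ph D.phi x.1 (u + (28 - 4 * mxt x.1) - x.2)) = L.map fun x => ph D.phi x.1 x.2 := by
    simp only [L2, List.map_map]
    refine List.map_congr_left fun x hx => ?_
    have h1 := hb x hx
    have h2 := mxt_le x.1 (hc22 x hx)
    have h3 := mxt_eq x.1 (hc22 x hx)
    have h4 : u + (28 - 4 * mxt x.1) - (28 + u - 4 * mxt x.1 - x.2) = x.2 := by omega
    show ph D.phi x.1 (u + (28 - 4 * mxt x.1) - (28 + u - 4 * mxt x.1 - x.2)) = ph D.phi x.1 x.2
    rw [h4]
  rw [e2] at hdp
  have e3 : ∀ M : List (ℕ × ℕ), (M.map fun x => D.phiZ x.1 x.2).sum =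
      ((M.map fun x => ph D.phi x.1 x.2).sum : ℤ) - 32768 * M.length := by
    intro M
    induction M with
    | nil => simp
    | cons x M ih =>
      simp only [List.map_cons, List.sum_cons, List.length_cons]
      rw [ih]
      unfold Cert.phiZ
      push_cast
      ring
  rw [e3, hlen]
  unfold Cert.alZ
  have h9 : av D.al u + 163840 ≤ (L.map fun x => ph D.phi x.1 x.2).sum + 2147483648 := by
    have : av D.al u + 163840 ≤ (dp D.phi u (c0 :: t') (0 :: List.replicate S inf)).getD S inf + 2147483648 := hT3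
    omega
  push_cast
  zify at h9
  linarith

end Pool.Agent.Lib.MP_4dc748_co.LL
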