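import Pool.Agent.Lib.MP_4dc748_co.LL.Tab

/-!
# The search for label functions with given patterns, and the check of the table
-/

set_option autoImplicit false

namespace Pool.Agent.Lib.MP_4dc748_co.LL

open Pool.Agent.Lib.MP_4dc748_co.RS

/-- All nibbles are at most 7. -/
def ok (a : ℕ) : Bool := Nat.beq (Nat.land a 0x8888888888888888) 0

/-- Last level. -/
def s1 (a : ℕ) : List ℕ → Bool
  | [] => false
  | m :: L => ok (Nat.add a m) || s1 a L

/-- Second level. -/
def s2 (A : List ℕ) (a : ℕ) : List ℕ → Bool
  | [] => false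
  | m :: L => (ok (Nat.add a m) && s1 (Nat.add a m) A) || s2 A a L

/-- Third level. -/
def s3 (A B : List ℕ) (a : ℕ) : List ℕ → Bool
  | [] => false
  | m :: L => (ok (Nat.add a m) && s2 A (Nat.add a m) B) || s3 A B a L

/-- Fourth level. -/
def s4 (A B C : List ℕ) (a : ℕ) : List ℕ → Bool
  | [] => false
  | m :: L => (ok (Nat.add a m) && s3 A B (Nat.add a m) C) || s4 A B C a L

/-- Fifth level. -/
def s5 (A B C D : List ℕ) (a : ℕ) : List ℕ → Bool
  | [] => false
  | m :: L => (ok (Nat.add a m) && s4 A B C (Nat.add a m) D) || s5 A B C D a L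

/-- Is there a 5-tuple of label functions with these patterns? -/
def srch (a b c d e : ℕ) : Bool := s5 (t4 e) (t3 d) (t2 c) (r1 b) 0 (r0 a)

/-- Sort after lowering the fourth entry. -/
def b3 (a b c d e : ℕ) : Bool := cond (Nat.ble e d) (bit a b c d e) (bit a b c e d)
/-- Sort after lowering the third entry. -/
def b2 (a b c d e : ℕ) : Bool := cond (Nat.ble d c) (bit a b c d e) (b3 a b d c e)
/-- Sort after lowering the second entry. -/
def b1 (a b c d e : ℕ) : Bool := cond (Nat.ble c b) (bit a b c d e) (b2 a c b d e)
/-- Sort after lowering the first entry. -/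
def b0 (a b c d e : ℕ) : Bool := cond (Nat.ble b a) (bit a b c d e) (b1 b a c d e)

/-- Some member of the list fails. -/
def anyNot (p : ℕ → Bool) : List ℕ → Bool
  | [] => false
  | q :: L => not (p q) || anyNot p L

/-- In the table, or one step above a tuple not in the table, or excluded by the search. -/
def stp (a b c d e : ℕ) : Bool :=
  bit a b c d e || (anyNot (fun q => bit a b c d q) (lw e) || (anyNot (fun q => b3 a b c q e) (lw d) ||
    (anyNot (fun q => b2 a b q d e) (lw c) || (anyNot (fun q => b1 a q c d e) (lw b) ||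
      (anyNot (fun q => b0 q b c d e) (lw a) || not (srch a b c d e))))))

/-- p holds for all numbers up to n. -/
def upTo (p : ℕ → Bool) : ℕ → Bool
  | 0 => p 0
  | k + 1 => p (k + 1) && upTo p k

/-- The check of one row. -/
def chk (a b : ℕ) : Bool := upTo (fun c => upTo (fun d => upTo (fun e => stp a b c d e) d) c) b

end Pool.Agent.Lib.MP_4dc748_co.LL
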