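import Pool.Agent.Lib.MP_4dc748_co.LL.Search

/-!
# Soundness of the search
-/

set_option autoImplicit false

namespace Pool.Agent.Lib.MP_4dc748_co.LL

open Pool.Agent.Lib.MP_4dc748_co.RS

theorem s1_true {a : ℕ} : ∀ {L : List ℕ} {m : ℕ}, m ∈ L → ok (Nat.add a m) = true → s1 a L = true
  | [], m, h, _ => absurd h (by simp)
  | k :: L, m, h, ho => by
      rw [s1, Bool.or_eq_true]
      rcases List.mem_cons.1 h with rfl | h
      · exact Or.inl ho
      · exact Or.inr (s1_true h ho)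

theorem s2_true {A : List ℕ} {a : ℕ} : ∀ {L : List ℕ} {m : ℕ}, m ∈ L → ok (Nat.add a m) = true →
    s1 (Nat.add a m) A = true → s2 A a L = true
  | [], m, h, _, _ => absurd h (by simp)
  | k :: L, m, h, ho, hs => by
      rw [s2, Bool.or_eq_true, Bool.and_eq_true]
      rcases List.mem_cons.1 h with rfl | h
      · exact Or.inl ⟨ho, hs⟩
      · exact Or.inr (s2_true h ho hs)

theorem s3_true {A B : List ℕ} {a : ℕ} : ∀ {L : List ℕ} {m : ℕ}, m ∈ L → ok (Nat.add a m) = true →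
    s2 A (Nat.add a m) B = true → s3 A B a L = true
  | [], m, h, _, _ => absurd h (by simp)
  | k :: L, m, h, ho, hs => by
      rw [s3, Bool.or_eq_true, Bool.and_eq_true]
      rcases List.mem_cons.1 h with rfl | h
      · exact Or.inl ⟨ho, hs⟩
      · exact Or.inr (s3_true h ho hs)

theorem s4_true {A B C : List ℕ} {a : ℕ} : ∀ {L : List ℕ} {m : ℕ}, m ∈ L → ok (Nat.add a m) = true →
    s3 A B (Nat.add a m) C = true → s4 A B C a L = true
  | [], m, h, _, _ => absurd h (by simp)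
  | k :: L, m, h, ho, hs => by
      rw [s4, Bool.or_eq_true, Bool.and_eq_true]
      rcases List.mem_cons.1 h with rfl | h
      · exact Or.inl ⟨ho, hs⟩
      · exact Or.inr (s4_true h ho hs)

theorem s5_true {A B C D : List ℕ} {a : ℕ} : ∀ {L : List ℕ} {m : ℕ}, m ∈ L → ok (Nat.add a m) = true →
    s4 A B C (Nat.add a m) D = true → s5 A B C D a L = true
  | [], m, h, _, _ => absurd h (by simp)
  | k :: L, m, h, ho, hs => by
      rw [s5, Bool.or_eq_true, Bool.and_eq_true]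
      rcases List.mem_cons.1 h with rfl | h
      · exact Or.inl ⟨ho, hs⟩
      · exact Or.inr (s5_true h ho hs)

/-- Value of a list of nibbles. -/
def hs : List ℕ → ℕ
  | [] => 0
  | x :: L => x + 16 * hs L

/-- The mask of the top bits of k nibbles. -/
def hm : ℕ → ℕ
  | 0 => 0
  | k + 1 => 8 + 16 * hm k

theorem land_step {a b c : ℕ} (ha : a ≤ 7) : (a + 16 * b) &&& (8 + 16 * c) = 16 * (b &&& c) := by
  apply Nat.eq_of_testBit_eq
  intro j
  have e1 : a + 16 * b = 2 ^ 4 * b + a := by ring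
  have e2 : 8 + 16 * c = 2 ^ 4 * c + 8 := by ring
  have e3 : 16 * (b &&& c) = 2 ^ 4 * (b &&& c) + 0 := by ring
  rw [Nat.testBit_and, e1, e2, e3, Nat.testBit_two_pow_mul_add _ (by omega) j,
    Nat.testBit_two_pow_mul_add _ (by norm_num) j, Nat.testBit_two_pow_mul_add _ (by norm_num) j]
  by_cases hj : j < 4
  · rw [if_pos hj, if_pos hj, if_pos hj, Nat.zero_testBit]
    have : ∀ a j : ℕ, a < 8 → j < 4 → (a.testBit j && Nat.testBit 8 j) = false := by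
      intro a j h1 h2
      interval_cases a <;> interval_cases j <;> decide
    exact this a j (by omega) hj
  · rw [if_neg hj, if_neg hj, if_neg hj, Nat.testBit_and]

theorem land_hs : ∀ {L : List ℕ}, (∀ x ∈ L, x ≤ 7) → hs L &&& hm L.length = 0
  | [], _ => rfl
  | x :: L, h => by
      rw [hs, List.length_cons, hm, land_step (h x (by simp)), land_hs fun y hy => h y (by simp [hy])]

theorem ok_hs {L : List ℕ} (h : ∀ x ∈ L, x ≤ 7) (hL : L.length = 16) : ok (hs L) = true := by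
  have h1 := land_hs h
  rw [hL] at h1
  have h2 : hm 16 = 0x8888888888888888 := by decide
  rw [h2] at h1
  rw [ok]
  have h3 : Nat.land (hs L) 0x8888888888888888 = 0 := h1
  rw [h3]
  rfl

/-- The sum of the five masks. -/
theorem sum_mk (n0 n1 n2 n3 n4 : F4 → ℕ) :
    mk0 (n0 F4.o) (n0 F4.i) (n0 F4.w) (n0 F4.v) + mk1 (n1 F4.o) (n1 F4.i) (n1 F4.w) (n1 F4.v) +
      mk2 (n2 F4.o) (n2 F4.i) (n2 F4.w) (n2 F4.v) + mk3 (n3 F4.o) (n3 F4.i) (n3 F4.w) (n3 F4.v) +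
      mk4 (n4 F4.o) (n4 F4.i) (n4 F4.w) (n4 F4.v) =
    hs [n0 F4.o + n1 F4.o + n2 F4.o + n3 F4.o + n4 F4.o, n0 F4.i + n1 F4.o + n2 F4.i + n3 F4.w + n4 F4.v,
      n0 F4.w + n1 F4.o + n2 F4.w + n3 F4.v + n4 F4.i, n0 F4.v + n1 F4.o + n2 F4.v + n3 F4.i + n4 F4.w,
      n0 F4.o + n1 F4.i + n2 F4.i + n3 F4.i + n4 F4.i, n0 F4.i + n1 F4.i + n2 F4.o + n3 F4.v + n4 F4.w,
      n0 F4.w + n1 F4.i + n2 F4.v + n3 F4.w + n4 F4.o, n0 F4.v + n1 F4.i + n2 F4.w + n3 F4.o + n4 F4.v,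
      n0 F4.o + n1 F4.w + n2 F4.w + n3 F4.w + n4 F4.w, n0 F4.i + n1 F4.w + n2 F4.v + n3 F4.o + n4 F4.i,
      n0 F4.w + n1 F4.w + n2 F4.o + n3 F4.i + n4 F4.v, n0 F4.v + n1 F4.w + n2 F4.i + n3 F4.v + n4 F4.o,
      n0 F4.o + n1 F4.v + n2 F4.v + n3 F4.v + n4 F4.v, n0 F4.i + n1 F4.v + n2 F4.w + n3 F4.i + n4 F4.o,
      n0 F4.w + n1 F4.v + n2 F4.i + n3 F4.o + n4 F4.w, n0 F4.v + n1 F4.v + n2 F4.o + n3 F4.w + n4 F4.i] := by
  simp only [mk0, mk1, mk2, mk3, mk4, hs, Nat.add_eq, Nat.mul_eq]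
  ring

theorem Ok.ok {n0 n1 n2 n3 n4 : F4 → ℕ} (h : Ok n0 n1 n2 n3 n4) :
    LL.ok (mk0 (n0 F4.o) (n0 F4.i) (n0 F4.w) (n0 F4.v) + mk1 (n1 F4.o) (n1 F4.i) (n1 F4.w) (n1 F4.v) +
      mk2 (n2 F4.o) (n2 F4.i) (n2 F4.w) (n2 F4.v) + mk3 (n3 F4.o) (n3 F4.i) (n3 F4.w) (n3 F4.v) +
      mk4 (n4 F4.o) (n4 F4.i) (n4 F4.w) (n4 F4.v)) = true := by
  rw [sum_mk]
  refine ok_hs ?_ rfl
  intro x hx
  simp only [List.mem_cons, List.not_mem_nil, or_false] at hx
  rcases hx with rfl | rfl | rfl | rfl | rfl | rfl | rfl | rfl | rfl | rfl | rfl | rfl | rfl | rfl | rfl | rfl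
  · exact h F4.o F4.o
  · exact h F4.o F4.i
  · exact h F4.o F4.w
  · exact h F4.o F4.v
  · exact h F4.i F4.o
  · exact h F4.i F4.i
  · exact h F4.i F4.w
  · exact h F4.i F4.v
  · exact h F4.w F4.o
  · exact h F4.w F4.i
  · exact h F4.w F4.w
  · exact h F4.w F4.v
  · exact h F4.v F4.o
  · exact h F4.v F4.i
  · exact h F4.v F4.w
  · exact h F4.v F4.v

end Pool.Agent.Lib.MP_4dc748_co.LL
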